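import Mathlib

/-!
From the parity of the valuations to a list of divisors `u` of `v ^ 2 - f`.
-/

set_option autoImplicit false
set_option linter.all false

open Polynomial

namespace Pool.Agent.N844.PL

variable {E : Type} [Field E]

/-- `f` is a square modulo all the primes which divide `u` with odd multiplicity -/
def Odds (f u : E[X]) : Prop := ∀ (π : E[X]), π.Monic → Irreducible π → ∀ (k : ℕ) (w : E[X]),
  u = π ^ (2 * k + 1) * w → ¬ π ∣ w → ∃ v : E[X], π ∣ v ^ 2 - f

theorem not_dvd_of_ne {π p : E[X]} (h1 : π.Monic) (h2 : Irreducible π) (h3 : p.Monic)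
    (h4 : Irreducible p) (h : p ≠ π) : ¬ p ∣ π := by
  intro hd
  exact h (eq_of_monic_of_associated h3 h1 (h4.associated_of_dvd h2 hd))

theorem asm (f : E[X]) : ∀ (n : ℕ) (u : E[X]), u.natDegree = n → u.Monic → IsCoprime u f →
    Odds f u → ∃ (l : List (E[X] × E[X])) (a : E[X]),
      (∀ p ∈ l, p.1.Monic ∧ IsCoprime p.1 f ∧ p.1 ∣ p.2 ^ 2 - f) ∧
      u = a ^ 2 * (l.map Prod.fst).prod := by
  intro n
  induction n using Nat.strong_induction_on with
  | _ n ih =>
    intro u hn hu hc hO
    by_cases h1 : u = 1
    · exact ⟨[], 1, by simp, by simp [h1]⟩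
    · obtain ⟨π, hπm, hπi, u1, rfl⟩ := exists_monic_irreducible_factor u (fun h => h1
        (hu.eq_one_of_isUnit h))
      have hu1 : u1.Monic := hπm.of_mul_monic_left hu
      have hd1 : 0 < π.natDegree := hπi.natDegree_pos
      have hdeg : π.natDegree + u1.natDegree = n := by
        rw [← hn, hπm.natDegree_mul hu1]
      by_cases h2 : π ∣ u1
      · obtain ⟨u2, rfl⟩ := h2
        have hu2 : u2.Monic := hπm.of_mul_monic_left hu1
        have hdeg2 : π.natDegree + u2.natDegree = (π * u2).natDegree := by
          rw [hπm.natDegree_mul hu2]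
        obtain ⟨l, a, hl, ha⟩ := ih u2.natDegree (by omega) u2 rfl hu2
          (hc.of_isCoprime_of_dvd_left (Dvd.intro_left (π * π) (by ring))) (by
            intro p hpm hpi k w hw hnd
            by_cases hpe : p = π
            · subst hpe
              exact hO p hpm hpi (k + 1) w (by rw [hw]; ring) hnd
            · refine hO p hpm hpi k (π ^ 2 * w) (by rw [hw]; ring) ?_
              intro hd
              rcases hpi.prime.dvd_or_dvd hd with h | h
              · exact not_dvd_of_ne hπm hπi hpm hpi hpe (hpi.prime.dvd_of_dvd_pow h)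
              · exact hnd h)
        exact ⟨l, π * a, hl, by
          conv_lhs => rw [ha]
          ring⟩
      · obtain ⟨v, hv⟩ := hO π hπm hπi 0 u1 (by ring) h2
        obtain ⟨l, a, hl, ha⟩ := ih u1.natDegree (by omega) u1 rfl hu1
          (hc.of_isCoprime_of_dvd_left (Dvd.intro_left π rfl)) (by
            intro p hpm hpi k w hw hnd
            by_cases hpe : p = π
            · subst hpe
              exfalso
              apply h2
              rw [hw]
              exact Dvd.intro (p ^ (2 * k) * w) (by ring)
            · refine hO p hpm hpi k (π * w) (by rw [hw]; ring) ?_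
              intro hd
              rcases hpi.prime.dvd_or_dvd hd with h | h
              · exact not_dvd_of_ne hπm hπi hpm hpi hpe h
              · exact hnd h)
        refine ⟨(π, v) :: l, a, ?_, ?_⟩
        · intro p hp
          rcases List.mem_cons.1 hp with rfl | hp
          · exact ⟨hπm, hc.of_isCoprime_of_dvd_left (Dvd.intro u1 rfl), hv⟩
          · exact hl p hp
        · rw [List.map_cons, List.prod_cons]
          conv_lhs => rw [ha]
          ring

/-- the product of the `(-1) ^ deg u * u` -/
theorem sgn_prod (l : List (E[X] × E[X])) (hl : ∀ p ∈ l, p.1.Monic) :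
    (l.map fun p => (-1) ^ p.1.natDegree * p.1).prod =
      (-1) ^ ((l.map Prod.fst).prod).natDegree * (l.map Prod.fst).prod ∧
      ((l.map Prod.fst).prod).Monic := by
  induction l with
  | nil => simp
  | cons p l ih =>
    obtain ⟨h1, h2⟩ := ih fun q hq => hl q (List.mem_cons_of_mem _ hq)
    have h3 := hl p List.mem_cons_self
    rw [List.map_cons, List.map_cons, List.prod_cons, List.prod_cons, h1,
      h3.natDegree_mul h2]
    refine ⟨?_, h3.mul h2⟩
    rw [pow_add]
    ring

end Pool.Agent.N844.PL
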