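import Pool.Agent.N844.PL.Gl

/-!
Base change.
-/

set_option autoImplicit false
set_option linter.all false

open Matrix Polynomial

namespace Pool.Agent.N844.PL

open Pool.Agent.N844.QR (Sr bs bs_apply tau tau_pow tau_top gA gB cm det_g hom po_eval es)

section bc

variable {k K : Type} [Field k] [Field K] (φ : k →+* K)

lemma quadA_map (g : ℕ) {f : k[X]} (hf : f.Monic) (h : k[X]) :
    (quadA g f h).map φ = quadA g (f.map φ) (h.map φ) := by
  ext i j
  unfold quadA
  rw [map_apply, Matrix.of_apply, Matrix.of_apply]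
  split_ifs
  · rw [← coeff_map, map_modByMonic _ hf, Polynomial.map_mul, Polynomial.map_pow, map_X]
  · exact map_zero φ

lemma quadB_map (g : ℕ) {f : k[X]} (hf : f.Monic) (h : k[X]) :
    (quadB g f h).map φ = quadB g (f.map φ) (h.map φ) := by
  ext i j
  unfold quadB
  rw [map_apply, Matrix.of_apply, Matrix.of_apply]
  split_ifs
  · rw [← coeff_map, map_modByMonic _ hf, Polynomial.map_mul, Polynomial.map_pow, map_X]
  · exact map_one φ
  · exact map_zero φ

variable {g : ℕ} {f : k[X]} (hf : f.Monic) (hd : f.natDegree = 2 * g + 1)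

include hf hd in
lemma norm_map [Infinite k] [Infinite K] (h : k[X]) :
    Algebra.norm K (AdjoinRoot.mk (f.map φ) (h.map φ)) = φ (Algebra.norm k (AdjoinRoot.mk f h)) := by
  have hf' : (f.map φ).Monic := hf.map φ
  have hd' : (f.map φ).natDegree = 2 * g + 1 := by rw [hf.natDegree_map, hd]
  have h1 := cS_det hf hd (AdjoinRoot.mk f h)
  have h2 := cS_det hf' hd' (AdjoinRoot.mk (f.map φ) (h.map φ))
  have h3 : (cS hf hd (AdjoinRoot.mk f h)).map (mapRingHom φ) =
      cS hf' hd' (AdjoinRoot.mk (f.map φ) (h.map φ)) := by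
    ext1 i j
    unfold cS
    rw [map_apply, Matrix.of_apply, Matrix.of_apply, coe_mapRingHom, Polynomial.map_sub,
      Polynomial.map_mul, map_X, map_C, map_C, ← quadA_eq hf hd, ← quadB_eq hf hd,
      ← quadA_eq hf' hd', ← quadB_eq hf' hd', ← quadA_map φ g hf, ← quadB_map φ g hf]
    rfl
  have h4 := congrArg (mapRingHom φ) h1
  rw [map_mul, map_pow, map_neg, map_one, RingHom.map_det, RingHom.mapMatrix_apply, h3, h2] at h4
  rw [map_mul, coe_mapRingHom, map_C] at h4
  exact C_injective (mul_right_cancel₀ hf'.ne_zero h4)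

include hf hd in
/-- the local condition from a plane -/
theorem loc_map [CharZero k] [CharZero K] (hs : f.Separable) (h : k[X]) (hh : IsCoprime h f)
    (hN : IsSquare (Algebra.norm k (AdjoinRoot.mk f h)))
    (hP : HasPl g ((quadA g f h).map φ) ((quadB g f h).map φ)) :
    ∃ (l : List (K[X] × K[X])) (s : K[X]),
      (∀ p ∈ l, p.1.Monic ∧ IsCoprime p.1 (f.map φ) ∧ p.1 ∣ p.2 ^ 2 - f.map φ) ∧
      f.map φ ∣ h.map φ * (l.map fun p => (-1) ^ p.1.natDegree * p.1).prod - s ^ 2 := by
  haveI : Infinite k := CharZero.infinite k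
  haveI : Infinite K := CharZero.infinite K
  have hf' : (f.map φ).Monic := hf.map φ
  have hd' : (f.map φ).natDegree = 2 * g + 1 := by rw [hf.natDegree_map, hd]
  obtain ⟨n, hn⟩ := hN
  have hn0 : n ≠ 0 := by
    rintro rfl
    obtain ⟨q, hq⟩ := inv_of hh
    rw [map_mul] at hq
    have h1 := congrArg (Algebra.norm k) hq
    rw [map_mul, hn, map_one] at h1
    simp at h1
  rw [quadA_map φ g hf, quadB_map φ g hf] at hP
  refine loc_of_plane hf' hd' two_ne_zero hs.map.squarefree (h.map φ) (hh.map (mapRingHom φ)) (φ n)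
    ?_ ?_ hP
  · rwa [Ne, map_eq_zero]
  · rw [norm_map φ hf hd, hn, map_mul, pow_two]

end bc

end Pool.Agent.N844.PL
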