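import Pool.Agent.N844.PL.Pt

/-!
The choice of the covector.
-/

set_option autoImplicit false
set_option linter.all false

open Matrix Polynomial

namespace Pool.Agent.N844.PL

open Pool.Agent.N844.QR (Sr bs bs_apply tau tau_pow tau_top gA gB cm det_g hom po_eval)

section ch

variable {E : Type} [Field E] {g : ℕ} {f : E[X]} (hf : f.Monic) (hd : f.natDegree = 2 * g + 1)

/-- the covectors -/
noncomputable def rhoL (η : Sr f) : (Sr f × E) →ₗ[E] (Jx g → E) where
  toFun x := rho hf hd η x.1 x.2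
  map_add' x y := by
    funext j
    rcases j with j | j
    · simp only [rho, Sum.elim_inl, Pi.add_apply, Prod.fst_add, mul_add, add_mul, map_add]
    · simp only [rho, Sum.elim_inr, Pi.add_apply, Prod.snd_add]
  map_smul' c x := by
    funext j
    rcases j with j | j
    · simp only [rho, Sum.elim_inl, Pi.smul_apply, Prod.smul_fst, mul_smul_comm, smul_mul_assoc,
        map_smul, RingHom.id_apply]
    · simp only [rho, Sum.elim_inr, Pi.smul_apply, Prod.smul_snd, RingHom.id_apply]

lemma tau_nondeg (ν : Sr f) (h : ∀ i : Fin (2 * g + 1), tau hf hd (ν * AdjoinRoot.root f ^ (i : ℕ)) = 0) :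
    ν = 0 := by
  rw [← mk_rd hf hd ν]
  unfold rd
  rw [Finset.sum_eq_zero, map_zero]
  intro k hk
  rw [h ⟨k, Finset.mem_range.1 hk⟩, map_zero, zero_mul]

theorem rhoL_surj (h : E[X]) (hh : IsCoprime h f) :
    Function.Surjective (rhoL hf hd (AdjoinRoot.mk f h)) := by
  haveI : Module.Finite E (Sr f) := Module.Finite.of_basis (bs hf hd)
  have hfr : Module.finrank E (Sr f × E) = Module.finrank E (Jx g → E) := by
    rw [Module.finrank_prod, Module.finrank_eq_card_basis (bs hf hd), Module.finrank_self,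
      Module.finrank_fintype_fun_eq_card, Fintype.card_sum, Fintype.card_fin, Fintype.card_fin]
  rw [← LinearMap.injective_iff_surjective_of_finrank_eq_finrank hfr, ← LinearMap.ker_eq_bot,
    LinearMap.ker_eq_bot']
  rintro ⟨μ, b⟩ h1
  have h2 : AdjoinRoot.mk f h * μ = 0 := by
    refine tau_nondeg hf hd _ fun i => ?_
    have := congrFun h1 (Sum.inl i)
    exact this
  have h3 : b = 0 := congrFun h1 (Sum.inr 0)
  obtain ⟨q, hq⟩ := inv_of hh
  rw [map_mul] at hq
  have h4 : μ = 0 := by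
    calc μ = (AdjoinRoot.mk f h * AdjoinRoot.mk f q) * μ := by rw [hq, one_mul]
      _ = AdjoinRoot.mk f q * (AdjoinRoot.mk f h * μ) := by ring
      _ = 0 := by rw [h2, mul_zero]
  rw [h3, h4]
  rfl

/-- the vector of an element of `E[θ]` -/
noncomputable def vc (ν : Sr f) : Jx g → E := Sum.elim (fun i => (bs hf hd).repr ν i) fun _ => 0

lemma rho_vc (η μ ν : Sr f) (b : E) :
    rho hf hd η μ b ⬝ᵥ vc hf hd ν = tau hf hd (η * μ * ν) := by
  simp only [dotProduct, Fintype.sum_sum_type, rho, vc, Sum.elim_inl, Sum.elim_inr, mul_zero,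
    Finset.sum_const_zero, add_zero]
  have := hA_coord hf hd (η * μ) ν 0
  rw [show η * μ * AdjoinRoot.root f ^ ((0 : Fin (2 * g + 1)) : ℕ) * ν = η * μ * ν by
    rw [show ((0 : Fin (2 * g + 1)) : ℕ) = 0 from rfl, pow_zero, mul_one]] at this
  rw [← this]
  refine Finset.sum_congr rfl fun i _ => ?_
  unfold hA
  rw [Matrix.of_apply, show ((0 : Fin (2 * g + 1)) : ℕ) + (i : ℕ) = i by simp]

lemma cA_vc (η ν ν' : Sr f) : vc hf hd ν ⬝ᵥ (cA hf hd η *ᵥ vc hf hd ν') =
    tau hf hd (η * ν * ν') := by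
  have h1 : cA hf hd η *ᵥ vc hf hd ν' = rho hf hd η ν' 0 := by
    funext j
    rcases j with j | j
    · simp only [mulVec, dotProduct, Fintype.sum_sum_type, cA, vc, Sum.elim_inl, Sum.elim_inr,
        fromBlocks_apply₁₁, mul_zero, Finset.sum_const_zero, add_zero, rho]
      rw [hA_coord]
      congr 1
      ring
    · simp only [mulVec, dotProduct, Fintype.sum_sum_type, cA, vc, Sum.elim_inl, Sum.elim_inr,
        fromBlocks_apply₂₁, Matrix.zero_apply, zero_mul, mul_zero, Finset.sum_const_zero, add_zero,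
        rho]
  rw [h1, dotProduct_comm, rho_vc]
  congr 1
  ring

/-- separation -/
lemma sep (h : E[X]) (hh : IsCoprime h f) (W : Submodule E (Jx g → E)) (v : Jx g → E) (hv : v ∉ W) :
    ∃ (μ : Sr f) (b : E), (∀ w ∈ W, rho hf hd (AdjoinRoot.mk f h) μ b ⬝ᵥ w = 0) ∧
      rho hf hd (AdjoinRoot.mk f h) μ b ⬝ᵥ v ≠ 0 := by
  classical
  obtain ⟨φ, hφ1, hφ2⟩ := Submodule.exists_le_ker_of_notMem hv
  have hφ : ∀ w, φ w = (fun j => φ (Pi.single j 1)) ⬝ᵥ w := by
    intro w
    conv_lhs => rw [← Finset.univ_sum_single w, map_sum]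
    refine Finset.sum_congr rfl fun j _ => ?_
    have e : (Pi.single j (w j) : Jx g → E) = w j • Pi.single j 1 := by
      rw [← Pi.single_smul, smul_eq_mul, mul_one]
    rw [e, map_smul, smul_eq_mul, mul_comm]
  obtain ⟨⟨μ, b⟩, hx⟩ := rhoL_surj hf hd h hh (fun j => φ (Pi.single j 1))
  have hx' : rho hf hd (AdjoinRoot.mk f h) μ b = fun j => φ (Pi.single j 1) := hx
  refine ⟨μ, b, fun w hw => ?_, ?_⟩
  · rw [hx', ← hφ]
    exact hφ2 hw
  · rw [hx', ← hφ]
    exact hφ1

theorem choice [Infinite E] (hsf : Squarefree f) (h : E[X]) (hh : IsCoprime h f)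
    (W : Submodule E (Jx g → E))
    (hA0 : ∀ w ∈ W, ∀ w' ∈ W, w ⬝ᵥ (cA hf hd (AdjoinRoot.mk f h) *ᵥ w') = 0)
    (hB0 : ∀ w ∈ W, ∀ w' ∈ W, w ⬝ᵥ (cB hf hd (AdjoinRoot.mk f h) *ᵥ w') = 0) :
    ∃ (M : E[X]) (b : E), IsCoprime M f ∧ b ≠ 0 ∧
      ∀ w ∈ W, rho hf hd (AdjoinRoot.mk f h) (AdjoinRoot.mk f M) b ⬝ᵥ w = 0 := by
  classical
  set η := AdjoinRoot.mk f h with hη
  -- the space of the covectors which vanish on `W`
  let K : Submodule E (Sr f × E) :=
    { carrier := {x | ∀ w ∈ W, rho hf hd η x.1 x.2 ⬝ᵥ w = 0}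
      add_mem' := by
        intro x y hx hy w hw
        have e := congrFun (congrArg DFunLike.coe rfl : (⇑(rhoL hf hd η)) = ⇑(rhoL hf hd η)) (x + y)
        have e2 : rho hf hd η (x + y).1 (x + y).2 = rho hf hd η x.1 x.2 + rho hf hd η y.1 y.2 :=
          (rhoL hf hd η).map_add x y
        rw [e2, add_dotProduct, hx w hw, hy w hw, add_zero]
      zero_mem' := by
        intro w hw
        have e2 : rho hf hd η (0 : Sr f × E).1 (0 : Sr f × E).2 = 0 := (rhoL hf hd η).map_zero
        rw [e2, zero_dotProduct]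
      smul_mem' := by
        intro c x hx w hw
        have e2 : rho hf hd η (c • x).1 (c • x).2 = c • rho hf hd η x.1 x.2 :=
          (rhoL hf hd η).map_smul c x
        rw [e2, smul_dotProduct, hx w hw, smul_zero] }
  have key1 : ∀ p q : E[X], Irreducible p → p * q = f → ∃ x ∈ K, x.1 * AdjoinRoot.mk f q ≠ 0 := by
    intro p q hp hpq
    by_contra hcon
    push Not at hcon
    have hmem : ∀ ν : Sr f, vc hf hd (AdjoinRoot.mk f q * ν) ∈ W := by
      intro ν
      by_contra hv
      obtain ⟨μ, b, h1, h2⟩ := sep hf hd h hh W _ hv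
      apply h2
      rw [rho_vc]
      have h3 := hcon (μ, b) h1
      have e : AdjoinRoot.mk f h * μ * (AdjoinRoot.mk f q * ν) =
          AdjoinRoot.mk f h * (μ * AdjoinRoot.mk f q) * ν := by ring
      rw [e, h3, mul_zero, zero_mul, map_zero]
    have h4 : η * AdjoinRoot.mk f q * AdjoinRoot.mk f q = 0 := by
      refine tau_nondeg hf hd _ fun i => ?_
      have h5 := hA0 _ (hmem 1) _ (hmem (AdjoinRoot.root f ^ (i : ℕ)))
      rw [cA_vc] at h5
      rw [← h5]
      congr 1
      ring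
    rw [hη, ← map_mul, ← map_mul, AdjoinRoot.mk_eq_zero] at h4
    have hq0 : q ≠ 0 := by
      rintro rfl
      rw [mul_zero] at hpq
      exact hf.ne_zero hpq.symm
    have h5 : p ∣ h * q := by
      have h6 : p * q ∣ h * q * q := by rw [hpq]; exact h4
      exact (mul_dvd_mul_iff_right hq0).1 h6
    have hpf : p ∣ f := Dvd.intro q hpq
    have h7 : p ∣ q := by
      rcases hp.prime.dvd_or_dvd h5 with h6 | h6
      · exact absurd (hh.isUnit_of_dvd' h6 hpf) hp.not_isUnit
      · exact h6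
    obtain ⟨r, rfl⟩ := h7
    exact hp.not_isUnit (hsf p ⟨r, by rw [← hpq]; ring⟩)
  have key2 : ∃ x ∈ K, x.2 ≠ 0 := by
    by_contra hcon
    push Not at hcon
    have hmem : (Pi.single (Sum.inr 0) 1 : Jx g → E) ∈ W := by
      by_contra hv
      obtain ⟨μ, b, h1, h2⟩ := sep hf hd h hh W _ hv
      apply h2
      rw [dotProduct_single, mul_one]
      exact hcon (μ, b) h1
    have h5 := hB0 _ hmem _ hmem
    rw [single_dotProduct, one_mul, mulVec_single, MulOpposite.op_one, one_smul] at h5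
    exact one_ne_zero h5
  -- the proper subspaces
  let N1 : E[X] → Submodule E K := fun q =>
    LinearMap.ker (((LinearMap.mulRight E (AdjoinRoot.mk f q)).comp (LinearMap.fst E (Sr f) E)).comp
      K.subtype)
  let N2 : Submodule E K := LinearMap.ker ((LinearMap.snd E (Sr f) E).comp K.subtype)
  let s : Finset (Submodule E K) := insert N2
    ((UniqueFactorizationMonoid.factors f).toFinset.image fun p => N1 (f / p))
  have hs : ⊤ ∉ s := by
    intro htop
    rcases Finset.mem_insert.1 htop with h1 | h1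
    · obtain ⟨x, hx, hx2⟩ := key2
      apply hx2
      have : (⟨x, hx⟩ : K) ∈ N2 := by rw [← h1]; exact Submodule.mem_top
      exact this
    · obtain ⟨p, hp, hp2⟩ := Finset.mem_image.1 h1
      have hp' := Multiset.mem_toFinset.1 hp
      have hpi := UniqueFactorizationMonoid.irreducible_of_factor p hp'
      have hpd := UniqueFactorizationMonoid.dvd_of_mem_factors hp'
      obtain ⟨x, hx, hx2⟩ := key1 p (f / p) hpi (EuclideanDomain.mul_div_cancel' hpi.ne_zero hpd)
      apply hx2
      have : (⟨x, hx⟩ : K) ∈ N1 (f / p) := by rw [hp2]; exact Submodule.mem_top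
      exact this
  have hcov := Subspace.biUnion_ne_univ_of_top_notMem hs
  obtain ⟨⟨⟨μ, b⟩, hx⟩, hx2⟩ := (Set.ne_univ_iff_exists_notMem _).1 hcov
  rw [Set.mem_iUnion₂] at hx2
  push Not at hx2
  obtain ⟨M, rfl⟩ := AdjoinRoot.mk_surjective μ
  refine ⟨M, b, ?_, ?_, hx⟩
  · refine isCoprime_of_irreducible_dvd (fun h0 => hf.ne_zero h0.2) fun z hz hzM hzf => ?_
    obtain ⟨p, hp, hzp⟩ := UniqueFactorizationMonoid.exists_mem_factors_of_dvd hf.ne_zero hz hzf
    have hpi := UniqueFactorizationMonoid.irreducible_of_factor p hp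
    have hpd := UniqueFactorizationMonoid.dvd_of_mem_factors hp
    have h1 := hx2 (N1 (f / p)) (Finset.mem_insert_of_mem (Finset.mem_image_of_mem _
      (Multiset.mem_toFinset.2 hp)))
    apply h1
    obtain ⟨r, hr⟩ := hzp.symm.dvd.trans hzM
    show AdjoinRoot.mk f M * AdjoinRoot.mk f (f / p) = 0
    rw [← map_mul, AdjoinRoot.mk_eq_zero, hr]
    have h2 := EuclideanDomain.mul_div_cancel' hpi.ne_zero hpd
    exact ⟨r, by linear_combination r * h2⟩
  · intro h0
    exact hx2 N2 (Finset.mem_insert_self _ _) h0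

end ch

end Pool.Agent.N844.PL
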