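import Pool.Agent.N844.PL.Kry

/-!
The normal form of a pencil and the transfer of linear subspaces.
-/

set_option autoImplicit false
set_option linter.all false

open Matrix Polynomial

namespace Pool.Agent.N844.PL

open Pool.Agent.N844.QR (Sr bs bs_apply tau tau_pow tau_top gA gB cm det_g hom po_eval es ro ro_eval
  ro_eval_zero IsPen)

section gen

variable {k : Type} [Field k] {g : ℕ} {f : k[X]} (hf : f.Monic) (hd : f.natDegree = 2 * g + 1)

lemma hA_smul (c : k) (η : Sr f) : hA hf hd (c • η) = c • hA hf hd η := by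
  ext i j
  unfold hA
  rw [Matrix.of_apply, Matrix.smul_apply, Matrix.of_apply, smul_mul_assoc, map_smul]

lemma hB_smul (c : k) (η : Sr f) : hB hf hd (c • η) = c • hB hf hd η := by
  ext i j
  unfold hB
  rw [Matrix.of_apply, Matrix.smul_apply, Matrix.of_apply, smul_mul_assoc, map_smul]

include hf hd in
theorem normal [CharZero k] (hi : Irreducible f) (A B : Matrix (Fin (2 * g + 2)) (Fin (2 * g + 2)) k)
    (m : k) (hm : m ≠ 0) (hpen : IsPen g f m A B) :
    ∃ (h : k[X]) (c : k) (P : Matrix (Fin (2 * g + 2)) (Fin (2 * g + 2)) k), IsCoprime h f ∧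
      IsSquare (Algebra.norm k (AdjoinRoot.mk f h)) ∧ c ≠ 0 ∧ P.det ≠ 0 ∧
      Pᵀ * A * P = c • quadA g f h ∧ Pᵀ * B * P = c • quadB g f h := by
  classical
  haveI : Infinite k := CharZero.infinite k
  set AJ := A.submatrix (es g) (es g) with hAJ
  set BJ := B.submatrix (es g) (es g) with hBJ
  have sA : AJ.IsSymm := hpen.symA.submatrix _
  have sB : BJ.IsSymm := hpen.symB.submatrix _
  have hdisc : ∀ x z : k, (-1) ^ (g + 1) * (x • AJ - z • BJ).det = m ^ 2 * (z * hom g f x z) := by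
    intro x z
    rw [← hpen.disc x z]
    congr 1
    have e : x • AJ - z • BJ = (x • A - z • B).submatrix (es g) (es g) := rfl
    rw [e, det_submatrix_equiv_self]
  obtain ⟨e, he, hβ⟩ := vertex hf hd AJ BJ sA sB m hm hdisc
  obtain ⟨U, A', B', hU, sA', sB', h1, h2⟩ := split AJ BJ sA sB e he hβ
  set β := e ⬝ᵥ (BJ *ᵥ e) with hβd
  obtain ⟨hA', hch, hlead⟩ := chpoly hf hd AJ BJ U A' B' m β hm hβ hdisc hU h1 h2
  obtain ⟨η₀, K, hK, h3, h4⟩ := krylov hf hd hi A' B' sA' sB' hA' hch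
  set η := β⁻¹ • η₀ with hη
  have hη0 : η₀ = β • η := by rw [hη, smul_smul, mul_inv_cancel₀ hβ, one_smul]
  obtain ⟨h, hh⟩ := AdjoinRoot.mk_surjective (g := f) η
  let PJ : Matrix (Jx g) (Jx g) k := U * fromBlocks K 0 0 1
  have hPA : PJᵀ * AJ * PJ = β • cA hf hd η := by
    have e1 : PJᵀ * AJ * PJ = (fromBlocks K 0 0 1)ᵀ * (Uᵀ * AJ * U) * fromBlocks K 0 0 1 := by
      show (U * fromBlocks K 0 0 1)ᵀ * AJ * (U * fromBlocks K 0 0 1) = _
      rw [transpose_mul]
      simp only [Matrix.mul_assoc]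
    rw [e1, h1, fromBlocks_transpose, fromBlocks_multiply, fromBlocks_multiply]
    unfold cA
    rw [fromBlocks_smul]
    congr 1
    · simp only [Matrix.mul_zero, Matrix.zero_mul, add_zero, transpose_zero]
      rw [h3, hη0, hA_smul]
    · simp
    · simp
    · simp
  have hPB : PJᵀ * BJ * PJ = β • cB hf hd η := by
    have e1 : PJᵀ * BJ * PJ = (fromBlocks K 0 0 1)ᵀ * (Uᵀ * BJ * U) * fromBlocks K 0 0 1 := by
      show (U * fromBlocks K 0 0 1)ᵀ * BJ * (U * fromBlocks K 0 0 1) = _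
      rw [transpose_mul]
      simp only [Matrix.mul_assoc]
    rw [e1, h2, fromBlocks_transpose, fromBlocks_multiply, fromBlocks_multiply]
    unfold cB
    rw [fromBlocks_smul]
    congr 1
    · simp only [Matrix.mul_zero, Matrix.zero_mul, add_zero, transpose_zero]
      rw [h4, hη0, hB_smul]
    · simp
    · simp
    · simp only [Matrix.mul_zero, Matrix.zero_mul, zero_add, transpose_one, Matrix.mul_one,
        Matrix.one_mul]
      ext i j
      have e2 : i = j := Subsingleton.elim _ _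
      subst e2
      simp
  have hPJ : PJ.det ≠ 0 := by
    show (U * fromBlocks K 0 0 1).det ≠ 0
    rw [det_mul, det_fromBlocks_zero₂₁, det_one, mul_one]
    exact mul_ne_zero hU hK
  have hdetA : (hA hf hd η₀).det = K.det ^ 2 * A'.det := by
    rw [← h3, det_mul, det_mul, det_transpose]
    ring
  have hnorm : Algebra.norm k η = (K.det * (U.det * m) / β ^ (g + 1)) ^ 2 := by
    have e1 := det_h hf hd η 1 0
    have e2 : hom g f 1 0 = 1 := by
      rw [← ro_eval]
      have := ro_eval_zero hf hd (RingHom.id k)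
      rwa [Polynomial.map_id] at this
    rw [zero_smul, sub_zero, one_smul, e2, one_mul] at e1
    have e3 : (hA hf hd η₀).det = β ^ (2 * g + 1) * (hA hf hd η).det := by
      rw [hη0, hA_smul, det_smul, Fintype.card_fin]
    have e4 : β ^ (2 * g + 2) * Algebra.norm k η = (K.det * (U.det * m)) ^ 2 := by
      rw [← e1, mul_pow, ← hlead]
      have e5 : β ^ (2 * g + 2) * ((-1) ^ g * (hA hf hd η).det) =
          (-1) ^ g * β * (β ^ (2 * g + 1) * (hA hf hd η).det) := by ring
      rw [e5, ← e3, hdetA]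
      ring
    rw [div_pow, ← e4, ← pow_mul, show (g + 1) * 2 = 2 * g + 2 by ring]
    field_simp
  have hηne : η ≠ 0 := by
    intro h0
    rw [h0] at hη0
    rw [smul_zero] at hη0
    have e1 : (hA hf hd η₀).det ≠ 0 := by
      rw [hdetA]
      exact mul_ne_zero (pow_ne_zero 2 hK) hA'
    apply e1
    have e2 : hA hf hd η₀ = 0 := by
      rw [hη0]
      ext i j
      show tau hf hd (0 * _) = 0
      rw [zero_mul, map_zero]
    rw [e2]
    exact det_zero
  refine ⟨h, β, PJ.submatrix (es g).symm (es g).symm, ?_, ?_, hβ, ?_, ?_, ?_⟩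
  · refine IsCoprime.symm ?_
    rw [hi.coprime_iff_not_dvd]
    intro h0
    apply hηne
    rw [← hh]
    exact AdjoinRoot.mk_eq_zero.2 h0
  · rw [hh, hnorm]
    exact ⟨_, pow_two _⟩
  · rwa [det_submatrix_equiv_self]
  · have e1 : A = AJ.submatrix (es g).symm (es g).symm := by
      rw [hAJ, submatrix_submatrix]
      simp
    have e2 : quadA g f h = (cA hf hd η).submatrix (es g).symm (es g).symm := by
      rw [← hh, ← quadA_eq hf hd, submatrix_submatrix]
      simp
    rw [e1, e2, transpose_submatrix, submatrix_mul_equiv, submatrix_mul_equiv, hPA]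
    rfl
  · have e1 : B = BJ.submatrix (es g).symm (es g).symm := by
      rw [hBJ, submatrix_submatrix]
      simp
    have e2 : quadB g f h = (cB hf hd η).submatrix (es g).symm (es g).symm := by
      rw [← hh, ← quadB_eq hf hd, submatrix_submatrix]
      simp
    rw [e1, e2, transpose_submatrix, submatrix_mul_equiv, submatrix_mul_equiv, hPB]
    rfl

lemma eA_eq : Pool.Agent.N844.QR.eA hf hd = quadA g f 1 := by
  have h1 := quadA_eq hf hd (1 : k[X])
  have h2 : hA hf hd (AdjoinRoot.mk f 1) = gA hf hd := by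
    ext i j
    unfold hA gA
    rw [Matrix.of_apply, Matrix.of_apply, map_one, one_mul]
  have h3 : quadA g f 1 = (cA hf hd (AdjoinRoot.mk f 1)).submatrix (es g).symm (es g).symm := by
    rw [← h1, submatrix_submatrix]
    simp
  rw [h3]
  unfold cA Pool.Agent.N844.QR.eA
  rw [h2]
  rfl

lemma eB_eq : Pool.Agent.N844.QR.eB hf hd = quadB g f 1 := by
  have h1 := quadB_eq hf hd (1 : k[X])
  have h2 : hB hf hd (AdjoinRoot.mk f 1) = gB hf hd := by
    ext i j
    unfold hB gB
    rw [Matrix.of_apply, Matrix.of_apply, map_one, one_mul]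
  have h3 : quadB g f 1 = (cB hf hd (AdjoinRoot.mk f 1)).submatrix (es g).symm (es g).symm := by
    rw [← h1, submatrix_submatrix]
    simp
  rw [h3]
  unfold cB Pool.Agent.N844.QR.eB
  rw [h2]
  rfl

end gen

section transfer

variable {K : Type} [Field K] {g : ℕ}

lemma val_eq {A A' P : Matrix (Fin (2 * g + 2)) (Fin (2 * g + 2)) K} {c : K}
    (h : Pᵀ * A * P = c • A') (y : Fin (2 * g + 2) → K) :
    (P *ᵥ y) ⬝ᵥ (A *ᵥ (P *ᵥ y)) = c * (y ⬝ᵥ (A' *ᵥ y)) := by
  have h1 : c * (y ⬝ᵥ (A' *ᵥ y)) = y ⬝ᵥ ((Pᵀ * A * P) *ᵥ y) := by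
    rw [h, smul_mulVec, dotProduct_smul, smul_eq_mul]
  rw [h1, ← mulVec_mulVec, ← mulVec_mulVec, dotProduct_mulVec y Pᵀ, vecMul_transpose]

lemma exL {n : ℕ} {P : Matrix (Fin n) (Fin n) K} (hP : P.det ≠ 0) :
    ∃ L : (Fin n → K) ≃ₗ[K] (Fin n → K), ∀ y, L y = P *ᵥ y := by
  have hu : IsUnit P := (Matrix.isUnit_iff_isUnit_det P).2 (isUnit_iff_ne_zero.2 hP)
  exact ⟨LinearEquiv.ofBijective P.mulVecLin ⟨Matrix.mulVec_injective_iff_isUnit.2 hu,
    Matrix.mulVec_surjective_iff_isUnit.2 hu⟩, fun y => rfl⟩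

theorem pl_to {A B A' B' P : Matrix (Fin (2 * g + 2)) (Fin (2 * g + 2)) K} {c : K} (hc : c ≠ 0)
    (hP : P.det ≠ 0) (hA : Pᵀ * A * P = c • A') (hB : Pᵀ * B * P = c • B') (h : HasPl g A B) :
    HasPl g A' B' := by
  obtain ⟨W, hW, hq⟩ := h
  obtain ⟨L, hL⟩ := exL hP
  refine ⟨W.map (L.symm : (Fin (2 * g + 2) → K) →ₗ[K] (Fin (2 * g + 2) → K)),
    (LinearEquiv.finrank_map_eq L.symm W).trans hW, fun z hz => ?_⟩
  obtain ⟨y, hy, hyz⟩ := hz
  have e : P *ᵥ z = y := by
    rw [← hL, ← hyz]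
    exact L.apply_symm_apply y
  have h1 := val_eq hA z
  have h2 := val_eq hB z
  rw [e, (hq y hy).1] at h1
  rw [e, (hq y hy).2] at h2
  exact ⟨(mul_eq_zero.1 h1.symm).resolve_left hc, (mul_eq_zero.1 h2.symm).resolve_left hc⟩

theorem pl_from {A B A' B' P : Matrix (Fin (2 * g + 2)) (Fin (2 * g + 2)) K} {c : K}
    (hP : P.det ≠ 0) (hA : Pᵀ * A * P = c • A') (hB : Pᵀ * B * P = c • B') (h : HasPl g A' B') :
    HasPl g A B := by
  obtain ⟨W, hW, hq⟩ := h
  obtain ⟨L, hL⟩ := exL hP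
  refine ⟨W.map (L : (Fin (2 * g + 2) → K) →ₗ[K] (Fin (2 * g + 2) → K)),
    (LinearEquiv.finrank_map_eq L W).trans hW, fun z hz => ?_⟩
  obtain ⟨y, hy, hyz⟩ := hz
  have e : z = P *ᵥ y := by
    rw [← hL, ← hyz]
    rfl
  have h1 := val_eq hA y
  have h2 := val_eq hB y
  rw [(hq y hy).1, mul_zero] at h1
  rw [(hq y hy).2, mul_zero] at h2
  rw [e]
  exact ⟨h1, h2⟩

lemma map_conj {k : Type} [Field k] (φ : k →+* K)
    {A A' P : Matrix (Fin (2 * g + 2)) (Fin (2 * g + 2)) k} {c : k} (h : Pᵀ * A * P = c • A') :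
    (P.map φ)ᵀ * A.map φ * P.map φ = φ c • A'.map φ := by
  have h1 := congrArg (fun M => M.map φ) h
  simp only [Matrix.map_mul, transpose_map] at h1
  rw [h1]
  ext i j
  simp

end transfer

end Pool.Agent.N844.PL
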