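import Pool.Agent.N844.PL.Ch

/-!
Linear subspaces of the intersections of two quadrics `X_h`.
-/

set_option autoImplicit false
set_option linter.all false

open Matrix Polynomial

namespace Pool.Agent.N844.PL

open Pool.Agent.N844.QR (Sr bs bs_apply tau tau_pow tau_top gA gB cm det_g hom po_eval es)

section gl

variable {k : Type} [Field k]

/-- the first form -/
noncomputable def quadA (g : ℕ) (f h : k[X]) : Matrix (Fin (2 * g + 2)) (Fin (2 * g + 2)) k :=
  Matrix.of fun i j => if (i : ℕ) ≤ 2 * g ∧ (j : ℕ) ≤ 2 * g then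
    ((h * X ^ ((i : ℕ) + j)) %ₘ f).coeff (2 * g) else 0

/-- the second form -/
noncomputable def quadB (g : ℕ) (f h : k[X]) : Matrix (Fin (2 * g + 2)) (Fin (2 * g + 2)) k :=
  Matrix.of fun i j => if (i : ℕ) ≤ 2 * g ∧ (j : ℕ) ≤ 2 * g then
    ((h * X ^ ((i : ℕ) + j + 1)) %ₘ f).coeff (2 * g) else if i = j then 1 else 0

/-- both forms vanish on a linear subspace of dimension `g` -/
def HasPl (g : ℕ) (A B : Matrix (Fin (2 * g + 2)) (Fin (2 * g + 2)) k) : Prop :=
  ∃ W : Submodule k (Fin (2 * g + 2) → k), Module.finrank k W = g ∧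
    ∀ y ∈ W, y ⬝ᵥ (A *ᵥ y) = 0 ∧ y ⬝ᵥ (B *ᵥ y) = 0

variable {g : ℕ} {f : k[X]} (hf : f.Monic) (hd : f.natDegree = 2 * g + 1)

lemma tau_mk (p : k[X]) : tau hf hd (AdjoinRoot.mk f p) = (p %ₘ f).coeff (2 * g) := by
  have e1 : AdjoinRoot.mk f p = AdjoinRoot.mk f (p %ₘ f) := by
    rw [AdjoinRoot.mk_eq_mk]
    exact ⟨p /ₘ f, by linear_combination -(modByMonic_add_div p f)⟩
  have h1 : (p %ₘ f).natDegree < 2 * g + 1 := by
    rw [← hd]
    refine natDegree_modByMonic_lt p hf ?_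
    rintro rfl
    simp at hd
  have e2 : AdjoinRoot.mk f (p %ₘ f) = ∑ i ∈ Finset.range (2 * g + 1),
      (p %ₘ f).coeff i • AdjoinRoot.root f ^ i := by
    conv_lhs => rw [(p %ₘ f).as_sum_range' (2 * g + 1) h1]
    rw [map_sum]
    refine Finset.sum_congr rfl fun i _ => ?_
    rw [← C_mul_X_pow_eq_monomial, map_mul, map_pow, AdjoinRoot.mk_X, Algebra.smul_def]
    rfl
  rw [e1, e2, map_sum, Finset.sum_range_succ, Finset.sum_eq_zero, zero_add, map_smul, tau_top,
    smul_eq_mul, mul_one]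
  intro i hi
  rw [map_smul, tau_pow hf hd (Finset.mem_range.1 hi), smul_zero]

lemma tau_mk_root (h : k[X]) (n : ℕ) :
    tau hf hd (AdjoinRoot.mk f h * AdjoinRoot.root f ^ n) = ((h * X ^ n) %ₘ f).coeff (2 * g) := by
  have e : AdjoinRoot.mk f h * AdjoinRoot.root f ^ n = AdjoinRoot.mk f (h * X ^ n) := by
    rw [map_mul, map_pow, AdjoinRoot.mk_X]
  rw [e, tau_mk]

lemma es_val_inl (i : Fin (2 * g + 1)) : ((es g (Sum.inl i) : Fin (2 * g + 2)) : ℕ) = i := rfl

lemma es_val_inr (i : Fin 1) : ((es g (Sum.inr i) : Fin (2 * g + 2)) : ℕ) = 2 * g + 1 := by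
  have e : i = 0 := Subsingleton.elim _ _
  subst e
  rfl

lemma quadA_eq (h : k[X]) : (quadA g f h).submatrix (es g) (es g) =
    cA hf hd (AdjoinRoot.mk f h) := by
  ext i j
  rw [submatrix_apply]
  unfold quadA cA
  rw [Matrix.of_apply]
  rcases i with i | i <;> rcases j with j | j
  · rw [es_val_inl, es_val_inl, if_pos ⟨by omega, by omega⟩, fromBlocks_apply₁₁]
    unfold hA
    rw [Matrix.of_apply, tau_mk_root]
  · rw [es_val_inl, es_val_inr, if_neg (by omega), fromBlocks_apply₁₂, Matrix.zero_apply]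
  · rw [es_val_inl, es_val_inr, if_neg (by omega), fromBlocks_apply₂₁, Matrix.zero_apply]
  · rw [es_val_inr, es_val_inr, if_neg (by omega), fromBlocks_apply₂₂, Matrix.zero_apply]

lemma quadB_eq (h : k[X]) : (quadB g f h).submatrix (es g) (es g) =
    cB hf hd (AdjoinRoot.mk f h) := by
  ext i j
  rw [submatrix_apply]
  unfold quadB cB
  rw [Matrix.of_apply]
  rcases i with i | i <;> rcases j with j | j
  · rw [es_val_inl, es_val_inl, if_pos ⟨by omega, by omega⟩, fromBlocks_apply₁₁]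
    unfold hB
    rw [Matrix.of_apply, tau_mk_root]
  · rw [es_val_inl, es_val_inr, if_neg (by omega), if_neg (fun h => by
      have := (es g).injective h
      simp at this), fromBlocks_apply₁₂, Matrix.zero_apply]
  · rw [es_val_inl, es_val_inr, if_neg (by omega), if_neg (fun h => by
      have := (es g).injective h
      simp at this), fromBlocks_apply₂₁, Matrix.zero_apply]
  · have e : i = j := Subsingleton.elim _ _
    subst e
    rw [es_val_inr, if_neg (by omega), if_pos rfl, fromBlocks_apply₂₂, Matrix.one_apply_eq]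

/-- change of the index set -/
lemma dot_es (A : Matrix (Fin (2 * g + 2)) (Fin (2 * g + 2)) k) (y y' : Fin (2 * g + 2) → k) :
    (y ∘ es g) ⬝ᵥ (A.submatrix (es g) (es g) *ᵥ (y' ∘ es g)) = y ⬝ᵥ (A *ᵥ y') := by
  have e1 : A.submatrix (es g) (es g) *ᵥ (y' ∘ es g) = (A *ᵥ y') ∘ es g := by
    rw [submatrix_mulVec_equiv]
    congr 2
    funext x
    simp
  rw [e1]
  exact comp_equiv_dotProduct_comp_equiv _ _ _

lemma polar (h2 : (2 : k) ≠ 0) {ι : Type} [Fintype ι] (A : Matrix ι ι k) (hA : A.IsSymm)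
    (W : Submodule k (ι → k)) (h : ∀ y ∈ W, y ⬝ᵥ (A *ᵥ y) = 0) :
    ∀ y ∈ W, ∀ y' ∈ W, y ⬝ᵥ (A *ᵥ y') = 0 := by
  intro y hy y' hy'
  have h1 := h _ (W.add_mem hy hy')
  have h3 : y' ⬝ᵥ (A *ᵥ y) = y ⬝ᵥ (A *ᵥ y') := by
    rw [dotProduct_mulVec, ← mulVec_transpose, hA.eq, dotProduct_comm]
  rw [mulVec_add, dotProduct_add, add_dotProduct, add_dotProduct, h _ hy, h _ hy', h3] at h1
  have h4 : 2 * (y ⬝ᵥ (A *ᵥ y')) = 0 := by linear_combination h1
  exact (mul_eq_zero.1 h4).resolve_left h2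

include hf hd in
theorem loc_of_plane [Infinite k] (h2 : (2 : k) ≠ 0) (hsf : Squarefree f) (h : k[X])
    (hh : IsCoprime h f) (m : k) (hm : m ≠ 0) (hN : Algebra.norm k (AdjoinRoot.mk f h) = m ^ 2)
    (hP : HasPl g (quadA g f h) (quadB g f h)) :
    ∃ (l : List (k[X] × k[X])) (s : k[X]),
      (∀ p ∈ l, p.1.Monic ∧ IsCoprime p.1 f ∧ p.1 ∣ p.2 ^ 2 - f) ∧
      f ∣ h * (l.map fun p => (-1) ^ p.1.natDegree * p.1).prod - s ^ 2 := by
  obtain ⟨W, hW, hq⟩ := hP
  let L : (Fin (2 * g + 2) → k) ≃ₗ[k] (Jx g → k) := LinearEquiv.funCongrLeft k k (es g)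
  let W' : Submodule k (Jx g → k) := W.map (L : (Fin (2 * g + 2) → k) →ₗ[k] (Jx g → k))
  have hW' : Module.finrank k W' = g := (LinearEquiv.finrank_map_eq L W).trans hW
  have hA0 : ∀ w ∈ W', ∀ w' ∈ W', w ⬝ᵥ (cA hf hd (AdjoinRoot.mk f h) *ᵥ w') = 0 := by
    refine polar h2 _ (cA_symm hf hd _) W' ?_
    rintro _ ⟨y, hy, rfl⟩
    have := (hq y hy).1
    rw [← dot_es, quadA_eq hf hd] at this
    exact this
  have hB0 : ∀ w ∈ W', ∀ w' ∈ W', w ⬝ᵥ (cB hf hd (AdjoinRoot.mk f h) *ᵥ w') = 0 := by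
    refine polar h2 _ (cB_symm hf hd _) W' ?_
    rintro _ ⟨y, hy, rfl⟩
    have := (hq y hy).2
    rw [← dot_es, quadB_eq hf hd] at this
    exact this
  obtain ⟨M, b, hM, hb, hρ⟩ := choice hf hd hsf h hh W' hA0 hB0
  exact loc hf hd h hh m hm hN W' hW' hA0 hB0 M hM b hb hρ

lemma cB_vc (η ν ν' : Sr f) : vc hf hd ν ⬝ᵥ (cB hf hd η *ᵥ vc hf hd ν') =
    tau hf hd (η * ν * (AdjoinRoot.root f * ν')) := by
  have h1 : cB hf hd η *ᵥ vc hf hd ν' = rho hf hd η (AdjoinRoot.root f * ν') 0 := by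
    funext j
    rcases j with j | j
    · simp only [mulVec, dotProduct, Fintype.sum_sum_type, cB, vc, Sum.elim_inl, Sum.elim_inr,
        fromBlocks_apply₁₁, mul_zero, Finset.sum_const_zero, add_zero, rho]
      rw [hB_coord]
      congr 1
      ring
    · simp only [mulVec, dotProduct, Fintype.sum_sum_type, cB, vc, Sum.elim_inl, Sum.elim_inr,
        fromBlocks_apply₂₁, Matrix.zero_apply, zero_mul, mul_zero, Finset.sum_const_zero, add_zero,
        rho]
  rw [h1, dotProduct_comm, rho_vc]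
  congr 1
  ring

include hf hd in
theorem plane_of_sq (h : k[X]) (hh : IsCoprime h f) (s : k[X]) (hs : f ∣ h - s ^ 2) :
    HasPl g (quadA g f h) (quadB g f h) := by
  have hms : AdjoinRoot.mk f h = AdjoinRoot.mk f s ^ 2 := by
    rw [← map_pow]
    exact AdjoinRoot.mk_eq_mk.2 hs
  obtain ⟨q, hq⟩ := inv_of hh
  rw [map_mul, hms] at hq
  -- the inverse of `s`
  set t : Sr f := AdjoinRoot.mk f s * AdjoinRoot.mk f q with ht
  have hst : AdjoinRoot.mk f s * t = 1 := by
    rw [ht, ← hq]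
    ring
  let v : Fin g → (Fin (2 * g + 2) → k) := fun i =>
    (LinearEquiv.funCongrLeft k k (es g)).symm (vc hf hd (t * AdjoinRoot.root f ^ (i : ℕ)))
  have hve : ∀ i, (v i) ∘ es g = vc hf hd (t * AdjoinRoot.root f ^ (i : ℕ)) := by
    intro i
    exact (LinearEquiv.funCongrLeft k k (es g)).apply_symm_apply _
  have hA : ∀ i j, v i ⬝ᵥ (quadA g f h *ᵥ v j) = 0 := by
    intro i j
    rw [← dot_es, quadA_eq hf hd, hve, hve, cA_vc, hms]
    have e : AdjoinRoot.mk f s ^ 2 * (t * AdjoinRoot.root f ^ (i : ℕ)) *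
        (t * AdjoinRoot.root f ^ (j : ℕ)) = (AdjoinRoot.mk f s * t) ^ 2 *
        AdjoinRoot.root f ^ ((i : ℕ) + j) := by ring
    rw [e, hst, one_pow, one_mul]
    exact tau_pow hf hd (by omega)
  have hB : ∀ i j, v i ⬝ᵥ (quadB g f h *ᵥ v j) = 0 := by
    intro i j
    rw [← dot_es, quadB_eq hf hd, hve, hve, cB_vc, hms]
    have e : AdjoinRoot.mk f s ^ 2 * (t * AdjoinRoot.root f ^ (i : ℕ)) *
        (AdjoinRoot.root f * (t * AdjoinRoot.root f ^ (j : ℕ))) = (AdjoinRoot.mk f s * t) ^ 2 *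
        AdjoinRoot.root f ^ ((i : ℕ) + j + 1) := by ring
    rw [e, hst, one_pow, one_mul]
    exact tau_pow hf hd (by omega)
  have hli : LinearIndependent k v := by
    have h1 : LinearIndependent k (fun i : Fin g => (bs hf hd) ⟨(i : ℕ), by omega⟩) :=
      (bs hf hd).linearIndependent.comp (fun i : Fin g => (⟨(i : ℕ), by omega⟩ : Fin (2 * g + 1)))
        (fun i j hij => Fin.ext (by simpa using congrArg Fin.val hij))
    rw [Fintype.linearIndependent_iff] at h1 ⊢
    intro c hc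
    apply h1 c
    have h3 : ∑ i, c i • vc hf hd (t * AdjoinRoot.root f ^ (i : ℕ)) = 0 := by
      have h4 := congrArg (fun y : Fin (2 * g + 2) → k => y ∘ es g) hc
      funext x
      have h5 := congrFun h4 x
      simp only [Function.comp_apply, Finset.sum_apply, Pi.smul_apply, Pi.zero_apply] at h5 ⊢
      rw [← h5]
      refine Finset.sum_congr rfl fun i _ => ?_
      rw [← hve]
      rfl
    have h5 : ∑ i, c i • (t * AdjoinRoot.root f ^ (i : ℕ)) = 0 := by
      apply (bs hf hd).repr.injective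
      rw [map_zero]
      ext x
      have h6 := congrFun h3 (Sum.inl x)
      simp only [Finset.sum_apply, Pi.smul_apply, vc, Sum.elim_inl, Pi.zero_apply] at h6
      rw [map_sum, Finsupp.finsetSum_apply]
      simp only [map_smul, Finsupp.smul_apply, Finsupp.zero_apply]
      exact h6
    have h6 : AdjoinRoot.mk f s * ∑ i, c i • (t * AdjoinRoot.root f ^ (i : ℕ)) = 0 := by
      rw [h5, mul_zero]
    rw [← h6, Finset.mul_sum]
    refine Finset.sum_congr rfl fun i _ => ?_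
    rw [bs_apply, mul_smul_comm, ← mul_assoc, hst, one_mul]
  refine ⟨Submodule.span k (Set.range v), ?_, fun y hy => ?_⟩
  · rw [finrank_span_eq_card hli, Fintype.card_fin]
  · obtain ⟨c, rfl⟩ := (Submodule.mem_span_range_iff_exists_fun k).1 hy
    have key : ∀ A : Matrix (Fin (2 * g + 2)) (Fin (2 * g + 2)) k,
        (∀ i j, v i ⬝ᵥ (A *ᵥ v j) = 0) → (∑ i, c i • v i) ⬝ᵥ (A *ᵥ ∑ i, c i • v i) = 0 := by
      intro A hA
      rw [mulVec_sum, dotProduct_sum]
      refine Finset.sum_eq_zero fun j _ => ?_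
      rw [sum_dotProduct]
      refine Finset.sum_eq_zero fun i _ => ?_
      rw [mulVec_smul, smul_dotProduct, dotProduct_smul, hA, smul_zero, smul_zero]
    exact ⟨key _ hA, key _ hB⟩

end gl

end Pool.Agent.N844.PL
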