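import Pool.Agent.N844.PL.Bc

/-!
The vertex of the singular quadric.
-/

set_option autoImplicit false
set_option linter.all false

open Matrix Polynomial

namespace Pool.Agent.N844.PL

open Pool.Agent.N844.QR (Sr bs bs_apply tau tau_pow tau_top gA gB cm det_g hom po_eval es ro ro_eval
  ro_eval_zero)

section ker

variable {k : Type} [Field k] {g : ℕ} {f : k[X]} (hf : f.Monic) (hd : f.natDegree = 2 * g + 1)

lemma sep_fun {ι : Type} [Fintype ι] [DecidableEq ι] (W : Submodule k (ι → k)) (v : ι → k)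
    (hv : v ∉ W) : ∃ c : ι → k, (∀ w ∈ W, c ⬝ᵥ w = 0) ∧ c ⬝ᵥ v ≠ 0 := by
  obtain ⟨φ, hφ1, hφ2⟩ := Submodule.exists_le_ker_of_notMem hv
  have hφ : ∀ w, φ w = (fun j => φ (Pi.single j 1)) ⬝ᵥ w := by
    intro w
    conv_lhs => rw [← Finset.univ_sum_single w, map_sum]
    refine Finset.sum_congr rfl fun j _ => ?_
    have e : (Pi.single j (w j) : ι → k) = w j • Pi.single j 1 := by
      rw [← Pi.single_smul, smul_eq_mul, mul_one]
    rw [e, map_smul, smul_eq_mul, mul_comm]
  refine ⟨fun j => φ (Pi.single j 1), fun w hw => ?_, ?_⟩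
  · rw [← hφ]
    exact hφ2 hw
  · rw [← hφ]
    exact hφ1

include hf hd in
theorem vertex [CharZero k] (A B : Matrix (Jx g) (Jx g) k) (hA : A.IsSymm) (hB : B.IsSymm) (m : k)
    (hm : m ≠ 0)
    (hdisc : ∀ x z : k, (-1) ^ (g + 1) * (x • A - z • B).det = m ^ 2 * (z * hom g f x z)) :
    ∃ e : Jx g → k, A *ᵥ e = 0 ∧ e ⬝ᵥ (B *ᵥ e) ≠ 0 := by
  classical
  haveI : Infinite k := CharZero.infinite k
  by_contra hcon
  push Not at hcon
  have hdet : A.det = 0 := by
    have h := hdisc 1 0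
    rw [zero_smul, sub_zero, one_smul, zero_mul, mul_zero] at h
    exact (mul_eq_zero.1 h).resolve_left (pow_ne_zero _ (neg_ne_zero.2 one_ne_zero))
  obtain ⟨e, he0, he⟩ := exists_mulVec_eq_zero_iff.2 hdet
  let K : Submodule k (Jx g → k) := LinearMap.ker A.mulVecLin
  have hK : ∀ y, y ∈ K ↔ A *ᵥ y = 0 := fun y => Iff.rfl
  have hpol := polar (two_ne_zero) B hB K (fun y hy => hcon y ((hK y).1 hy))
  -- `B e` is in the image of `A`
  have him : B *ᵥ e ∈ LinearMap.range A.mulVecLin := by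
    by_contra hv
    obtain ⟨c, h1, h2⟩ := sep_fun _ _ hv
    apply h2
    refine hpol c ?_ e he
    rw [hK]
    funext i
    have h3 := h1 (A *ᵥ Pi.single i 1) ⟨Pi.single i 1, rfl⟩
    rw [dotProduct_mulVec, ← mulVec_transpose, hA.eq, dotProduct_single, mul_one] at h3
    exact h3
  obtain ⟨w, hw⟩ := him
  have hw' : A *ᵥ w = B *ᵥ e := hw
  -- over the polynomials
  let M : Matrix (Jx g) (Jx g) k[X] := A.map C - (X : k[X]) • B.map C
  have hMdet : M.det = C ((-1) ^ (g + 1) * m ^ 2) * (X * ro g f) := by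
    apply Polynomial.funext
    intro z
    have h1 : M.det.eval z = ((1 : k) • A - z • B).det := by
      rw [← coe_evalRingHom, RingHom.map_det]
      congr 1
      ext i j
      simp [M]
      ring
    have h2 := hdisc 1 z
    rw [eval_mul, eval_mul, eval_C, eval_X, ro_eval, h1]
    have h3 : ((-1 : k) ^ (g + 1)) * (-1) ^ (g + 1) = 1 := by
      rw [← mul_pow]; simp
    calc ((1 : k) • A - z • B).det = ((-1 : k) ^ (g + 1) * (-1) ^ (g + 1)) *
          ((1 : k) • A - z • B).det := by rw [h3, one_mul]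
      _ = (-1) ^ (g + 1) * ((-1) ^ (g + 1) * ((1 : k) • A - z • B).det) := by ring
      _ = _ := by rw [h2]; ring
  have hmap : ∀ (D : Matrix (Jx g) (Jx g) k) (y : Jx g → k),
      D.map C *ᵥ (fun i => C (y i)) = fun i => (C ((D *ᵥ y) i) : k[X]) := by
    intro D y
    funext i
    simp only [mulVec, dotProduct, map_apply, map_sum, map_mul]
  have hMv : ∀ y : Jx g → k, M *ᵥ (fun i => C (y i)) =
      fun i => C ((A *ᵥ y) i) - X * C ((B *ᵥ y) i) := by
    intro y
    show (A.map C - (X : k[X]) • B.map C) *ᵥ (fun i => C (y i)) = _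
    rw [sub_mulVec, smul_mulVec, hmap, hmap]
    funext i
    simp [Pi.sub_apply, Pi.smul_apply, smul_eq_mul]
  have hadj : ∀ y : Jx g → k[X], M.adjugate *ᵥ (M *ᵥ y) = M.det • y := by
    intro y
    rw [mulVec_mulVec, adjugate_mul, smul_mulVec, one_mulVec]
  have h1 : (X : k[X]) • (M.adjugate *ᵥ fun i => C ((B *ᵥ e) i)) = -(M.det • fun i => C (e i)) := by
    rw [← hadj, hMv, he, ← mulVec_smul, ← mulVec_neg]
    congr 1
    funext i
    simp
  have h2 : (fun i => (C ((B *ᵥ e) i) : k[X])) = M *ᵥ (fun i => C (w i)) +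
      (X : k[X]) • fun i => C ((B *ᵥ w) i) := by
    rw [hMv, hw']
    funext i
    simp
  rw [h2, mulVec_add, hadj, mulVec_smul, hMdet] at h1
  apply he0
  funext i
  have h3 := congrFun h1 i
  simp only [Pi.smul_apply, Pi.add_apply, smul_eq_mul, Pi.neg_apply] at h3
  have h4 : (C ((-1) ^ (g + 1) * m ^ 2) * (X * ro g f)) * C (w i) +
      X * (M.adjugate *ᵥ fun i => C ((B *ᵥ w) i)) i =
      -(C ((-1) ^ (g + 1) * m ^ 2) * ro g f * C (e i)) := by
    apply mul_left_cancel₀ (X_ne_zero : (X : k[X]) ≠ 0)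
    rw [h3]
    ring
  have h5 := congrArg (eval 0) h4
  simp only [eval_add, eval_mul, eval_X, eval_C, eval_neg, zero_mul, mul_zero, add_zero] at h5
  have h6 : (ro g f).eval 0 = 1 := by
    have := ro_eval_zero hf hd (RingHom.id k)
    rwa [Polynomial.map_id] at this
  rw [h6, mul_one] at h5
  have h7 : (-1 : k) ^ (g + 1) * m ^ 2 ≠ 0 :=
    mul_ne_zero (pow_ne_zero _ (neg_ne_zero.2 one_ne_zero)) (pow_ne_zero 2 hm)
  exact (mul_eq_zero.1 (neg_eq_zero.1 h5.symm)).resolve_left h7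

end ker

end Pool.Agent.N844.PL
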