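import Pool.Agent.N844.PL.Split

/-!
The Krylov basis.
-/

set_option autoImplicit false
set_option linter.all false

open Matrix Polynomial

namespace Pool.Agent.N844.PL

open Pool.Agent.N844.QR (Sr bs bs_apply tau tau_pow tau_top gA gB cm det_g hom po_eval es ro ro_eval
  ro_eval_zero)

section kry

variable {k : Type} [Field k] {g : ℕ} {f : k[X]} (hf : f.Monic) (hd : f.natDegree = 2 * g + 1)

theorem krylov (hi : Irreducible f) (A B : Matrix (Fin (2 * g + 1)) (Fin (2 * g + 1)) k)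
    (sA : A.IsSymm) (sB : B.IsSymm) (hdet : A.det ≠ 0) (hch : (A⁻¹ * B).charpoly = f) :
    ∃ (η : Sr f) (K : Matrix (Fin (2 * g + 1)) (Fin (2 * g + 1)) k), K.det ≠ 0 ∧
      Kᵀ * A * K = hA hf hd η ∧ Kᵀ * B * K = hB hf hd η := by
  classical
  set T : Matrix (Fin (2 * g + 1)) (Fin (2 * g + 1)) k := A⁻¹ * B with hT
  have hAT : A * T = B := by
    rw [hT, ← Matrix.mul_assoc, Matrix.mul_nonsing_inv _ (isUnit_iff_ne_zero.2 hdet), Matrix.one_mul]
  have hTA : Tᵀ * A = A * T := by
    have h1 := congrArg Matrix.transpose hAT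
    rw [transpose_mul, sA.eq, sB.eq] at h1
    rw [h1, hAT]
  have hpow : ∀ i : ℕ, (T ^ i)ᵀ * A = A * T ^ i := by
    intro i
    induction i with
    | zero => simp
    | succ i ih =>
      rw [pow_succ, transpose_mul, Matrix.mul_assoc, ih, ← Matrix.mul_assoc, hTA, Matrix.mul_assoc,
        ← pow_succ', ← pow_succ]
  have hTf : aeval T f = 0 := by
    rw [← hch]
    exact Matrix.aeval_self_charpoly T
  let v : Fin (2 * g + 1) → k := Pi.single 0 1
  have hv : v ≠ 0 := by
    intro h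
    have h1 := congrFun h 0
    simp [v] at h1
  let K : Matrix (Fin (2 * g + 1)) (Fin (2 * g + 1)) k := Matrix.of fun i j => (T ^ (j : ℕ) *ᵥ v) i
  let s : ℕ → k := fun n => v ⬝ᵥ ((A * T ^ n) *ᵥ v)
  have hgram : ∀ (D : Matrix (Fin (2 * g + 1)) (Fin (2 * g + 1)) k) (i j : Fin (2 * g + 1)),
      (Kᵀ * D * K) i j = (T ^ (i : ℕ) *ᵥ v) ⬝ᵥ (D *ᵥ (T ^ (j : ℕ) *ᵥ v)) := by
    intro D i j
    obtain ⟨w, hw⟩ : ∃ w : Fin (2 * g + 1) → Fin (2 * g + 1) → k, ∀ j, w j = T ^ (j : ℕ) *ᵥ v :=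
      ⟨fun j => T ^ (j : ℕ) *ᵥ v, fun j => rfl⟩
    have hKa : ∀ a b, K a b = w b a := by
      intro a b
      rw [hw]
      rfl
    rw [← hw, ← hw, Matrix.mul_apply]
    simp only [Matrix.mul_apply, transpose_apply, hKa, dotProduct, mulVec, Finset.mul_sum,
      Finset.sum_mul]
    rw [Finset.sum_comm]
    refine Finset.sum_congr rfl fun x _ => Finset.sum_congr rfl fun y _ => ?_
    ring
  have hs : ∀ i j : ℕ, (T ^ i *ᵥ v) ⬝ᵥ (A *ᵥ (T ^ j *ᵥ v)) = s (i + j) := by
    intro i j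
    show _ = v ⬝ᵥ ((A * T ^ (i + j)) *ᵥ v)
    have h1 : ∀ u, (T ^ i *ᵥ v) ⬝ᵥ u = v ⬝ᵥ ((T ^ i)ᵀ *ᵥ u) := by
      intro u
      rw [dotProduct_mulVec, vecMul_transpose]
    rw [h1, mulVec_mulVec, mulVec_mulVec, hpow, Matrix.mul_assoc, ← pow_add]
  have hKdet : K.det ≠ 0 := by
    intro h0
    obtain ⟨c, hc0, hc⟩ := exists_mulVec_eq_zero_iff.2 h0
    let p : k[X] := ∑ j : Fin (2 * g + 1), C (c j) * X ^ (j : ℕ)
    have hp : aeval T p *ᵥ v = 0 := by
      rw [← hc]
      funext i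
      simp only [p, map_sum, map_mul, aeval_C, aeval_X_pow]
      rw [sum_mulVec]
      simp only [Finset.sum_apply]
      rw [mulVec, dotProduct]
      refine Finset.sum_congr rfl fun j _ => ?_
      show ((algebraMap k _ (c j) * T ^ (j : ℕ)) *ᵥ v) i = (T ^ (j : ℕ) *ᵥ v) i * c j
      rw [Algebra.algebraMap_eq_smul_one, smul_mul_assoc, Matrix.one_mul, smul_mulVec,
        Pi.smul_apply, smul_eq_mul, mul_comm]
    have hpc : ∀ j : Fin (2 * g + 1), p.coeff j = c j := by
      intro j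
      simp only [p, finsetSum_coeff, coeff_C_mul, coeff_X_pow]
      rw [Finset.sum_eq_single j]
      · simp
      · intro b _ hb
        rw [if_neg (fun h => hb (Fin.ext h.symm)), mul_zero]
      · intro h
        exact absurd (Finset.mem_univ _) h
    have hp0 : p ≠ 0 := by
      intro h
      apply hc0
      funext j
      rw [← hpc, h, coeff_zero]
      rfl
    have hpd : p.natDegree < f.natDegree := by
      rw [hd]
      refine lt_of_le_of_lt (natDegree_sum_le_of_forall_le _ _ (n := 2 * g) fun j _ => ?_)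
        (Nat.lt_succ_self _)
      refine (natDegree_C_mul_X_pow_le _ _).trans ?_
      omega
    have hcop : IsCoprime f p := by
      rw [hi.coprime_iff_not_dvd]
      intro h
      exact absurd (natDegree_le_of_dvd h hp0) (not_le.2 hpd)
    obtain ⟨a, b, hab⟩ := hcop
    have h1 := congrArg (aeval T) hab
    rw [map_add, map_mul, map_mul, hTf, mul_zero, zero_add, map_one] at h1
    apply hv
    rw [← one_mulVec v, ← h1, ← mulVec_mulVec, hp, mulVec_zero]
  obtain ⟨⟨μ, b⟩, hx⟩ := rhoL_surj hf hd (1 : k[X]) isCoprime_one_left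
    (Sum.elim (fun i : Fin (2 * g + 1) => s i) fun _ => 0)
  have hbase : ∀ i : Fin (2 * g + 1), tau hf hd (μ * AdjoinRoot.root f ^ (i : ℕ)) = s i := by
    intro i
    have h1 := congrFun hx (Sum.inl i)
    have h2 : tau hf hd (AdjoinRoot.mk f 1 * μ * AdjoinRoot.root f ^ (i : ℕ)) = s i := h1
    rwa [map_one, one_mul] at h2
  have hrec : ∀ n : ℕ, ∑ j ∈ Finset.range (2 * g + 1 + 1), f.coeff j * s (n + j) = 0 := by
    intro n
    have h1 : v ⬝ᵥ ((A * T ^ n * aeval T f) *ᵥ v) = 0 := by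
      rw [hTf, Matrix.mul_zero, zero_mulVec, dotProduct_zero]
    rw [aeval_eq_sum_range, hd, Matrix.mul_sum, sum_mulVec, dotProduct_sum] at h1
    rw [← h1]
    refine Finset.sum_congr rfl fun j _ => ?_
    rw [Matrix.mul_smul, smul_mulVec, dotProduct_smul, smul_eq_mul, Matrix.mul_assoc, ← pow_add]
  have hall : ∀ n : ℕ, tau hf hd (μ * AdjoinRoot.root f ^ n) = s n := by
    intro n
    induction n using Nat.strong_induction_on with
    | _ n ih =>
      by_cases hn : n < 2 * g + 1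
      · exact hbase ⟨n, hn⟩
      · obtain ⟨n', rfl⟩ := Nat.exists_eq_add_of_le (not_lt.1 hn)
        have h1 := ann hf hd (μ * AdjoinRoot.root f ^ n')
        have h2 := hrec n'
        rw [Finset.sum_range_succ] at h1 h2
        have h3 : f.coeff (2 * g + 1) = 1 := by rw [← hd]; exact hf
        rw [h3, one_mul] at h1 h2
        have h4 : ∑ j ∈ Finset.range (2 * g + 1), f.coeff j *
            tau hf hd (μ * AdjoinRoot.root f ^ n' * AdjoinRoot.root f ^ j) =
            ∑ j ∈ Finset.range (2 * g + 1), f.coeff j * s (n' + j) := by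
          refine Finset.sum_congr rfl fun j hj => ?_
          rw [mul_assoc, ← pow_add, ih (n' + j) (by have := Finset.mem_range.1 hj; omega)]
        rw [h4] at h1
        rw [show 2 * g + 1 + n' = n' + (2 * g + 1) by ring, pow_add, ← mul_assoc]
        have := h1.trans h2.symm
        exact add_left_cancel this
  refine ⟨μ, K, hKdet, ?_, ?_⟩
  · ext i j
    rw [hgram, hs]
    show _ = tau hf hd (μ * AdjoinRoot.root f ^ ((i : ℕ) + j))
    rw [hall]
  · ext i j
    rw [hgram, ← hAT, ← mulVec_mulVec, show T *ᵥ (T ^ (j : ℕ) *ᵥ v) = T ^ ((j : ℕ) + 1) *ᵥ v by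
      rw [mulVec_mulVec, ← pow_succ'], hs]
    show _ = tau hf hd (μ * AdjoinRoot.root f ^ ((i : ℕ) + j + 1))
    rw [hall, add_assoc]

end kry

end Pool.Agent.N844.PL
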