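import Pool.Agent.N844.PL.Sq

/-!
Parity: the values of the form on the orthogonal complement of an isotropic subspace.
-/

set_option autoImplicit false
set_option linter.all false

open Matrix Polynomial

namespace Pool.Agent.N844.PL

section par

variable {E : Type} [Field E] {g : ℕ}

/-- the index set -/
abbrev Ix (g : ℕ) : Type := Fin g ⊕ Fin (g + 2)

/-- a nonzero vector orthogonal to the isotropic subspace, isotropic modulo `π` -/
theorem sq_of (S : Matrix (Ix g) (Ix g) E[X]) (hS : S.IsSymm)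
    (h0 : ∀ i j, S (Sum.inl i) (Sum.inl j) = 0) (f : E[X]) (m : E) (hm : m ≠ 0)
    (hd : (-1) ^ (g + 1) * S.det = C m ^ 2 * f) (π : E[X]) (hπ : Irreducible π)
    (z : Ix g → E[X]) (hz : ∀ i, (S *ᵥ z) (Sum.inl i) = 0) (hq : π ∣ z ⬝ᵥ (S *ᵥ z))
    (j₀ : Fin (g + 2)) (hj : ¬ π ∣ z (Sum.inr j₀)) : ∃ v : E[X], π ∣ v ^ 2 - f := by
  haveI : Fact (Irreducible π) := ⟨hπ⟩
  let φ : E[X] →+* AdjoinRoot π := AdjoinRoot.mk π
  let T : Matrix (Ix g) (Ix g) (AdjoinRoot π) := S.map φ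
  have hT : T.IsSymm := by
    show (S.map φ)ᵀ = S.map φ
    rw [← transpose_map, hS.eq]
  let zb : Ix g → AdjoinRoot π := fun i => φ (z i)
  have hTz : ∀ i, (T *ᵥ zb) i = φ ((S *ᵥ z) i) := by
    intro i
    simp only [mulVec, dotProduct, T, zb, map_apply, map_sum, map_mul]
  let v : Fin (g + 1) → Ix g → AdjoinRoot π :=
    Fin.cons zb fun i => Pi.single (Sum.inl i) 1
  have hv : LinearIndependent (AdjoinRoot π) v := by
    rw [linearIndependent_finCons]
    refine ⟨?_, ?_⟩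
    · have h1 := (Pi.basisFun (AdjoinRoot π) (Ix g)).linearIndependent.comp
        (Sum.inl : Fin g → Ix g) Sum.inl_injective
      have e : ((Pi.basisFun (AdjoinRoot π) (Ix g)) ∘ (Sum.inl : Fin g → Ix g)) =
          fun i : Fin g => (Pi.single (Sum.inl i) 1 : Ix g → AdjoinRoot π) := by
        funext i
        simp [Pi.basisFun_apply]
      rw [← e]
      exact h1
    · intro h1
      have h2 : ∀ y ∈ Submodule.span (AdjoinRoot π)
          (Set.range fun i : Fin g => (Pi.single (Sum.inl i) 1 : Ix g → AdjoinRoot π)),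
          y (Sum.inr j₀) = 0 := by
        intro y hy
        refine Submodule.span_induction ?_ ?_ ?_ ?_ hy
        · rintro _ ⟨i, rfl⟩
          simp
        · rfl
        · intro a b _ _ ha hb
          rw [Pi.add_apply, ha, hb, add_zero]
        · intro a b _ hb
          rw [Pi.smul_apply, hb, smul_zero]
      exact hj (AdjoinRoot.mk_eq_zero.1 (h2 _ h1))
  have hiso : ∀ i j, v i ⬝ᵥ (T *ᵥ v j) = 0 := by
    have ha : ∀ i j : Fin g, (Pi.single (Sum.inl i) 1 : Ix g → AdjoinRoot π) ⬝ᵥ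
        (T *ᵥ (Pi.single (Sum.inl j) 1 : Ix g → AdjoinRoot π)) = 0 := by
      intro i j
      rw [single_dotProduct, one_mul, mulVec_single, MulOpposite.op_one, one_smul]
      show φ (S (Sum.inl i) (Sum.inl j)) = 0
      rw [h0, map_zero]
    have hb : ∀ i : Fin g, (Pi.single (Sum.inl i) 1 : Ix g → AdjoinRoot π) ⬝ᵥ (T *ᵥ zb) = 0 := by
      intro i
      rw [single_dotProduct, one_mul, hTz, hz, map_zero]
    have hc : ∀ i : Fin g, zb ⬝ᵥ (T *ᵥ (Pi.single (Sum.inl i) 1 : Ix g → AdjoinRoot π)) = 0 := by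
      intro i
      rw [dotProduct_mulVec, ← mulVec_transpose, hT.eq, dotProduct_comm]
      exact hb i
    have hdd : zb ⬝ᵥ (T *ᵥ zb) = 0 := by
      have h1 : zb ⬝ᵥ (T *ᵥ zb) = φ (z ⬝ᵥ (S *ᵥ z)) := by
        simp only [dotProduct, hTz, map_sum, map_mul, zb]
      rw [h1]
      exact AdjoinRoot.mk_eq_zero.2 hq
    intro i j
    refine Fin.cases ?_ (fun i => ?_) i <;> refine Fin.cases ?_ (fun j => ?_) j
    · simpa only [v, Fin.cons_zero] using hdd
    · simpa only [v, Fin.cons_zero, Fin.cons_succ] using hc j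
    · simpa only [v, Fin.cons_zero, Fin.cons_succ] using hb i
    · simpa only [v, Fin.cons_succ] using ha i j
  obtain ⟨c, hc⟩ := isq (by
    rw [Fintype.card_sum, Fintype.card_fin, Fintype.card_fin]
    ring) T hT v hv hiso
  have hdT : T.det = φ S.det := by
    rw [RingHom.map_det]
    rfl
  have h3 : φ (C m) ^ 2 * φ f = c ^ 2 := by
    rw [← hc, hdT, ← map_pow, ← map_mul, ← hd, map_mul, map_pow, map_neg, map_one]
  have hm' : φ (C m) ≠ 0 := by
    intro h
    have h4 : π ∣ C m := AdjoinRoot.mk_eq_zero.1 h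
    exact hπ.not_isUnit (isUnit_of_dvd_unit h4 (isUnit_C.2 (isUnit_iff_ne_zero.2 hm)))
  obtain ⟨w, hw⟩ := AdjoinRoot.mk_surjective (g := π) (c / φ (C m))
  refine ⟨w, ?_⟩
  apply AdjoinRoot.mk_eq_zero.1
  rw [map_sub, map_pow, hw, div_pow, ← h3]
  show φ (C m) ^ 2 * φ f / φ (C m) ^ 2 - φ f = 0
  rw [mul_div_cancel_left₀ _ (pow_ne_zero 2 hm'), sub_self]

/-- division by `π` -/
theorem desc (S : Matrix (Ix g) (Ix g) E[X]) (hS : S.IsSymm)
    (h0 : ∀ i j, S (Sum.inl i) (Sum.inl j) = 0) (π : E[X]) (hπ : Irreducible π)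
    (z : Ix g → E[X]) (hz : ∀ i, (S *ᵥ z) (Sum.inl i) = 0) (y : Fin (g + 2) → E[X])
    (hy : ∀ j, z (Sum.inr j) = π * y j) :
    (∀ i, (S *ᵥ (Sum.elim 0 y : Ix g → E[X])) (Sum.inl i) = 0) ∧
      z ⬝ᵥ (S *ᵥ z) = π ^ 2 * ((Sum.elim 0 y : Ix g → E[X]) ⬝ᵥ
        (S *ᵥ (Sum.elim 0 y : Ix g → E[X]))) := by
  have h1 : ∀ i, (S *ᵥ z) (Sum.inl i) = π * (S *ᵥ (Sum.elim 0 y : Ix g → E[X])) (Sum.inl i) := by
    intro i
    simp only [mulVec, dotProduct, Fintype.sum_sum_type, h0, zero_mul, Finset.sum_const_zero,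
      zero_add, Sum.elim_inr, hy, Sum.elim_inl, Pi.zero_apply, mul_zero, Finset.mul_sum]
    refine Finset.sum_congr rfl fun j _ => ?_
    ring
  have h2 : ∀ i, (S *ᵥ (Sum.elim 0 y : Ix g → E[X])) (Sum.inl i) = 0 := by
    intro i
    have h3 := hz i
    rw [h1] at h3
    exact (mul_eq_zero.1 h3).resolve_left hπ.ne_zero
  refine ⟨h2, ?_⟩
  have h4 : ∀ j, (S *ᵥ z) (Sum.inr j) = ∑ i, S (Sum.inr j) (Sum.inl i) * z (Sum.inl i) +
      π * (S *ᵥ (Sum.elim 0 y : Ix g → E[X])) (Sum.inr j) := by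
    intro j
    simp only [mulVec, dotProduct, Fintype.sum_sum_type, Sum.elim_inr, hy, Sum.elim_inl,
      Pi.zero_apply, mul_zero, Finset.mul_sum, Finset.sum_const_zero, zero_add]
    congr 1
    refine Finset.sum_congr rfl fun j _ => ?_
    ring
  have h5 : ∑ j, y j * ∑ i, S (Sum.inr j) (Sum.inl i) * z (Sum.inl i) = 0 := by
    have h6 : ∑ i, z (Sum.inl i) * (S *ᵥ (Sum.elim 0 y : Ix g → E[X])) (Sum.inl i) = 0 :=
      Finset.sum_eq_zero fun i _ => by rw [h2, mul_zero]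
    rw [← h6]
    simp only [mulVec, dotProduct, Fintype.sum_sum_type, Sum.elim_inr, Sum.elim_inl,
      Pi.zero_apply, mul_zero, Finset.mul_sum, Finset.sum_const_zero, zero_add]
    rw [Finset.sum_comm]
    refine Finset.sum_congr rfl fun i _ => Finset.sum_congr rfl fun j _ => ?_
    rw [hS.apply (Sum.inl i) (Sum.inr j)]
    ring
  have h7 : z ⬝ᵥ (S *ᵥ z) = ∑ i, z (Sum.inl i) * (S *ᵥ z) (Sum.inl i) +
      ∑ j, z (Sum.inr j) * (S *ᵥ z) (Sum.inr j) := by
    rw [dotProduct, Fintype.sum_sum_type]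
  have h8 : (Sum.elim 0 y : Ix g → E[X]) ⬝ᵥ (S *ᵥ (Sum.elim 0 y : Ix g → E[X])) =
      ∑ j, y j * (S *ᵥ (Sum.elim 0 y : Ix g → E[X])) (Sum.inr j) := by
    rw [dotProduct, Fintype.sum_sum_type]
    simp
  rw [h7, h8, Finset.sum_eq_zero (fun i _ => by rw [hz, mul_zero]), zero_add]
  have h9 : ∑ j, z (Sum.inr j) * (S *ᵥ z) (Sum.inr j) =
      π * ∑ j, y j * ∑ i, S (Sum.inr j) (Sum.inl i) * z (Sum.inl i) +
        π ^ 2 * ∑ j, y j * (S *ᵥ (Sum.elim 0 y : Ix g → E[X])) (Sum.inr j) := by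
    rw [Finset.mul_sum, Finset.mul_sum, ← Finset.sum_add_distrib]
    refine Finset.sum_congr rfl fun j _ => ?_
    rw [h4, hy]
    ring
  rw [h9, h5, mul_zero, zero_add]

/-- the values of the form on the orthogonal complement of `W` have even valuation at `π` if `f` is not a
square modulo `π` -/
theorem parity (S : Matrix (Ix g) (Ix g) E[X]) (hS : S.IsSymm)
    (h0 : ∀ i j, S (Sum.inl i) (Sum.inl j) = 0) (f : E[X]) (m : E) (hm : m ≠ 0)
    (hd : (-1) ^ (g + 1) * S.det = C m ^ 2 * f) (π : E[X]) (hπ : Irreducible π) :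
    ∀ (k : ℕ) (z : Ix g → E[X]), (∀ i, (S *ᵥ z) (Sum.inl i) = 0) →
      ∀ w : E[X], z ⬝ᵥ (S *ᵥ z) = π ^ (2 * k + 1) * w → ¬ π ∣ w → ∃ v : E[X], π ∣ v ^ 2 - f := by
  intro k
  induction k with
  | zero =>
    intro z hz w hw hnd
    by_cases hall : ∀ j, π ∣ z (Sum.inr j)
    · exfalso
      choose y hy using hall
      apply hnd
      obtain ⟨-, h2⟩ := desc S hS h0 π hπ z hz y hy
      rw [hw] at h2
      have h3 : π * w = π * (π * ((Sum.elim 0 y : Ix g → E[X]) ⬝ᵥ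
        (S *ᵥ (Sum.elim 0 y : Ix g → E[X])))) := by
        rw [← mul_assoc, ← pow_two, ← h2]
        ring
      exact Dvd.intro _ (mul_left_cancel₀ hπ.ne_zero h3).symm
    · push Not at hall
      obtain ⟨j₀, hj⟩ := hall
      exact sq_of S hS h0 f m hm hd π hπ z hz (by rw [hw]; exact Dvd.intro w (by ring)) j₀ hj
  | succ k ih =>
    intro z hz w hw hnd
    by_cases hall : ∀ j, π ∣ z (Sum.inr j)
    · choose y hy using hall
      obtain ⟨h1, h2⟩ := desc S hS h0 π hπ z hz y hy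
      refine ih _ h1 w ?_ hnd
      rw [hw] at h2
      apply mul_left_cancel₀ (pow_ne_zero 2 hπ.ne_zero)
      rw [← h2]
      ring
    · push Not at hall
      obtain ⟨j₀, hj⟩ := hall
      exact sq_of S hS h0 f m hm hd π hπ z hz
        (by rw [hw]; exact Dvd.intro (π ^ (2 * (k + 1)) * w) (by ring)) j₀ hj

end par

end Pool.Agent.N844.PL
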