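import Pool.Agent.N844.QR.Ex
import Pool.Agent.N844.PL.Par

/-!
The forms `τ(h λ μ)` and `τ(h θ λ μ)` and polynomial vectors.
-/

set_option autoImplicit false
set_option linter.all false

open Matrix Polynomial

namespace Pool.Agent.N844.PL

open Pool.Agent.N844.QR (Sr bs bs_apply tau tau_pow tau_top gA gB cm det_g hom)

section horner

variable {E : Type} [Field E]

/-- Horner's polynomials -/
noncomputable def Hp (f : E[X]) (k : ℕ) : E[X] := divX^[k] f

lemma Hp_zero (f : E[X]) : Hp f 0 = f := rfl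

lemma Hp_coeff (f : E[X]) (k n : ℕ) : (Hp f k).coeff n = f.coeff (n + k) := by
  induction k generalizing n with
  | zero => rfl
  | succ k ih =>
    unfold Hp at ih ⊢
    rw [Function.iterate_succ_apply', coeff_divX, ih]
    congr 1
    ring

lemma Hp_succ (f : E[X]) (k : ℕ) : X * Hp f (k + 1) = Hp f k - C (f.coeff k) := by
  have h := divX_mul_X_add (Hp f k)
  have h2 : (Hp f k).coeff 0 = f.coeff k := by
    rw [Hp_coeff, zero_add]
  rw [h2] at h
  have h3 : Hp f (k + 1) = divX (Hp f k) := by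
    unfold Hp
    rw [Function.iterate_succ_apply']
  rw [h3]
  linear_combination h

lemma Hp_deg {f : E[X]} (hf : f.Monic) {N : ℕ} (hN : f.natDegree = N) : Hp f N = 1 := by
  ext n
  rw [Hp_coeff]
  rcases Nat.eq_zero_or_pos n with rfl | hn
  · rw [zero_add, ← hN, coeff_one_zero]
    exact hf
  · rw [coeff_eq_zero_of_natDegree_lt (by omega), coeff_one, if_neg (by omega)]

lemma tel {f : E[X]} (hf : f.Monic) {N : ℕ} (hN : f.natDegree = N) (s : ℕ → E) :
    ∑ k ∈ Finset.range N, (X * C (s k) - C (s (k + 1))) * Hp f (k + 1) =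
      f * C (s 0) - C (∑ k ∈ Finset.range (N + 1), f.coeff k * s k) := by
  have h1 : ∀ k, (X * C (s k) - C (s (k + 1))) * Hp f (k + 1) =
      (Hp f k * C (s k) - Hp f (k + 1) * C (s (k + 1))) - C (f.coeff k * s k) := by
    intro k
    rw [sub_mul, show X * C (s k) * Hp f (k + 1) = C (s k) * (X * Hp f (k + 1)) by ring, Hp_succ,
      C_mul]
    ring
  rw [Finset.sum_congr rfl fun k _ => h1 k, Finset.sum_sub_distrib, Finset.sum_range_sub',
    Hp_deg hf hN, Hp_zero, Finset.sum_range_succ, map_add, map_sum]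
  have h2 : f.coeff N = 1 := by rw [← hN]; exact hf
  rw [h2, one_mul, one_mul]
  ring

end horner

section forms

variable {E : Type} [Field E] {g : ℕ} {f : E[X]} (hf : f.Monic) (hd : f.natDegree = 2 * g + 1)

/-- the form `τ(h λ μ)` -/
noncomputable def hA (η : Sr f) : Matrix (Fin (2 * g + 1)) (Fin (2 * g + 1)) E :=
  Matrix.of fun i j => tau hf hd (η * AdjoinRoot.root f ^ ((i : ℕ) + j))

/-- the form `τ(h λ θ μ)` -/
noncomputable def hB (η : Sr f) : Matrix (Fin (2 * g + 1)) (Fin (2 * g + 1)) E :=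
  Matrix.of fun i j => tau hf hd (η * AdjoinRoot.root f ^ ((i : ℕ) + j + 1))

lemma lm_mul (η : Sr f) (j : Fin (2 * g + 1)) (n : ℕ) : η * AdjoinRoot.root f ^ (n + (j : ℕ)) =
    ∑ k, Algebra.leftMulMatrix (bs hf hd) η k j • (AdjoinRoot.root f ^ (n + (k : ℕ))) := by
  have h1 : η * bs hf hd j = ∑ k, Algebra.leftMulMatrix (bs hf hd) η k j • bs hf hd k := by
    have := (bs hf hd).sum_repr (η * bs hf hd j)
    rw [← this]
    refine Finset.sum_congr rfl fun k _ => ?_
    rw [Algebra.leftMulMatrix_eq_repr_mul]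
  have e : η * AdjoinRoot.root f ^ (n + (j : ℕ)) =
      AdjoinRoot.root f ^ n * (η * bs hf hd j) := by
    rw [bs_apply]; ring
  rw [e, h1, Finset.mul_sum]
  refine Finset.sum_congr rfl fun k _ => ?_
  rw [bs_apply, mul_smul_comm, ← pow_add]

lemma gA_lm (η : Sr f) : gA hf hd * Algebra.leftMulMatrix (bs hf hd) η = hA hf hd η := by
  ext i j
  rw [Matrix.mul_apply]
  unfold gA hA
  simp only [Matrix.of_apply]
  rw [lm_mul hf hd η j i, map_sum]
  refine Finset.sum_congr rfl fun k _ => ?_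
  rw [map_smul, smul_eq_mul, mul_comm]

lemma gB_lm (η : Sr f) : gB hf hd * Algebra.leftMulMatrix (bs hf hd) η = hB hf hd η := by
  ext i j
  rw [Matrix.mul_apply]
  unfold gB hB
  simp only [Matrix.of_apply]
  have h := lm_mul hf hd η j ((i : ℕ) + 1)
  rw [show (i : ℕ) + 1 + j = i + j + 1 by ring] at h
  rw [h, map_sum]
  refine Finset.sum_congr rfl fun k _ => ?_
  rw [map_smul, smul_eq_mul, mul_comm, show (i : ℕ) + 1 + k = i + k + 1 by ring]

lemma det_h (η : Sr f) (x z : E) : (-1) ^ g * (x • hA hf hd η - z • hB hf hd η).det =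
    hom g f x z * Algebra.norm E η := by
  have e : x • hA hf hd η - z • hB hf hd η =
      (x • gA hf hd - z • gB hf hd) * Algebra.leftMulMatrix (bs hf hd) η := by
    rw [Matrix.sub_mul, Matrix.smul_mul, Matrix.smul_mul, gA_lm, gB_lm]
  rw [e, det_mul, ← mul_assoc, det_g, Algebra.norm_eq_matrix_det (bs hf hd)]

lemma hA_coord (η ν : Sr f) (j : Fin (2 * g + 1)) :
    ∑ i, hA hf hd η j i * (bs hf hd).repr ν i = tau hf hd (η * AdjoinRoot.root f ^ (j : ℕ) * ν) := by
  conv_rhs => rw [← (bs hf hd).sum_repr ν, Finset.mul_sum, map_sum]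
  refine Finset.sum_congr rfl fun i _ => ?_
  rw [mul_smul_comm, map_smul, smul_eq_mul, mul_comm, bs_apply]
  unfold hA
  rw [Matrix.of_apply, pow_add]
  congr 2
  ring

lemma hB_coord (η ν : Sr f) (j : Fin (2 * g + 1)) :
    ∑ i, hB hf hd η j i * (bs hf hd).repr ν i =
      tau hf hd (η * AdjoinRoot.root f ^ (j : ℕ) * (AdjoinRoot.root f * ν)) := by
  conv_rhs => rw [← (bs hf hd).sum_repr ν, Finset.mul_sum, Finset.mul_sum, map_sum]
  refine Finset.sum_congr rfl fun i _ => ?_
  rw [mul_smul_comm, mul_smul_comm, map_smul, smul_eq_mul, mul_comm, bs_apply]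
  unfold hB
  rw [Matrix.of_apply]
  congr 2
  ring

lemma ann (ν : Sr f) : ∑ k ∈ Finset.range (2 * g + 1 + 1),
    f.coeff k * tau hf hd (ν * AdjoinRoot.root f ^ k) = 0 := by
  have h : AdjoinRoot.mk f (∑ k ∈ Finset.range (f.natDegree + 1), monomial k (f.coeff k)) = 0 := by
    rw [← f.as_sum_range, AdjoinRoot.mk_self]
  rw [hd, map_sum] at h
  have h2 : tau hf hd (ν * ∑ k ∈ Finset.range (2 * g + 1 + 1),
      AdjoinRoot.mk f (monomial k (f.coeff k))) = 0 := by
    rw [h, mul_zero, map_zero]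
  rw [Finset.mul_sum, map_sum] at h2
  rw [← h2]
  refine Finset.sum_congr rfl fun k _ => ?_
  have e : AdjoinRoot.mk f (monomial k (f.coeff k)) = f.coeff k • AdjoinRoot.root f ^ k := by
    rw [← C_mul_X_pow_eq_monomial, map_mul, map_pow, AdjoinRoot.mk_X, Algebra.smul_def]
    rfl
  rw [e, mul_smul_comm, map_smul, smul_eq_mul]

/-- the functional `ν ↦ ∑ H_k τ(ν θ ^ k)` is reduction modulo `f` -/
noncomputable def rd (ν : Sr f) : E[X] :=
  ∑ k ∈ Finset.range (2 * g + 1), C (tau hf hd (ν * AdjoinRoot.root f ^ k)) * Hp f (k + 1)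

lemma rd_add (ν ν' : Sr f) : rd hf hd (ν + ν') = rd hf hd ν + rd hf hd ν' := by
  unfold rd
  rw [← Finset.sum_add_distrib]
  refine Finset.sum_congr rfl fun k _ => ?_
  rw [add_mul, map_add, map_add, add_mul]

lemma rd_smul (c : E) (ν : Sr f) : rd hf hd (c • ν) = C c * rd hf hd ν := by
  unfold rd
  rw [Finset.mul_sum]
  refine Finset.sum_congr rfl fun k _ => ?_
  rw [smul_mul_assoc, map_smul, smul_eq_mul, C_mul]
  ring

lemma rd_root (ν : Sr f) : AdjoinRoot.mk f (rd hf hd (AdjoinRoot.root f * ν)) =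
    AdjoinRoot.root f * AdjoinRoot.mk f (rd hf hd ν) := by
  have h := tel hf hd (fun k => tau hf hd (ν * AdjoinRoot.root f ^ k))
  rw [ann, map_zero, sub_zero] at h
  have h2 : X * rd hf hd ν - rd hf hd (AdjoinRoot.root f * ν) =
      f * C (tau hf hd (ν * AdjoinRoot.root f ^ 0)) := by
    rw [← h]
    unfold rd
    rw [Finset.mul_sum, ← Finset.sum_sub_distrib]
    refine Finset.sum_congr rfl fun k _ => ?_
    have e : AdjoinRoot.root f * ν * AdjoinRoot.root f ^ k = ν * AdjoinRoot.root f ^ (k + 1) := by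
      ring
    rw [e]
    ring
  have h3 := congrArg (AdjoinRoot.mk f) h2
  rw [map_sub, map_mul, map_mul, AdjoinRoot.mk_self, zero_mul, AdjoinRoot.mk_X] at h3
  exact (sub_eq_zero.1 h3).symm

lemma rd_one : rd hf hd (1 : Sr f) = 1 := by
  unfold rd
  rw [Finset.sum_range_succ, Finset.sum_eq_zero, zero_add, one_mul, tau_top, map_one, one_mul,
    Hp_deg hf hd]
  intro k hk
  rw [one_mul, tau_pow hf hd (Finset.mem_range.1 hk), map_zero, zero_mul]

theorem mk_rd (ν : Sr f) : AdjoinRoot.mk f (rd hf hd ν) = ν := by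
  obtain ⟨p, rfl⟩ := AdjoinRoot.mk_surjective ν
  induction p using Polynomial.induction_on with
  | C c =>
    have e : AdjoinRoot.mk f (C c) = c • (1 : Sr f) := by
      rw [Algebra.smul_def, mul_one]; rfl
    rw [e, rd_smul, rd_one, mul_one]
    exact e
  | add p q hp hq => rw [map_add, rd_add, map_add, hp, hq]
  | monomial n c ih =>
    have e : AdjoinRoot.mk f (C c * X ^ (n + 1)) =
        AdjoinRoot.root f * AdjoinRoot.mk f (C c * X ^ n) := by
      rw [← AdjoinRoot.mk_X, ← map_mul]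
      congr 1
      ring
    rw [e, rd_root, ih]

lemma rd_deg (ν : Sr f) : (rd hf hd ν).natDegree ≤ 2 * g := by
  unfold rd
  refine natDegree_sum_le_of_forall_le _ _ fun k hk => ?_
  refine (natDegree_C_mul_le _ _).trans ?_
  refine natDegree_le_iff_coeff_eq_zero.2 fun n hn => ?_
  rw [Hp_coeff, coeff_eq_zero_of_natDegree_lt (by omega)]

end forms

end Pool.Agent.N844.PL
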