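import Pool.Agent.N844.PL.Vec
import Pool.Agent.N844.PL.Asm

/-!
A linear subspace of dimension `g` on which both forms vanish gives a class in the image of the Jacobian.
-/

set_option autoImplicit false
set_option linter.all false

open Matrix Polynomial

namespace Pool.Agent.N844.PL

open Pool.Agent.N844.QR (Sr bs bs_apply tau tau_pow tau_top gA gB cm det_g hom po_eval)

section pt

variable {E : Type} [Field E] {g : ℕ} {f : E[X]} (hf : f.Monic) (hd : f.natDegree = 2 * g + 1)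

/-- the square property of the values at a covector which vanishes on an isotropic subspace -/
theorem odds [Infinite E] (η : Sr f) (m : E) (hm : m ≠ 0) (hN : Algebra.norm E η = m ^ 2)
    (W : Submodule E (Jx g → E)) (hW : Module.finrank E W = g)
    (hA0 : ∀ w ∈ W, ∀ w' ∈ W, w ⬝ᵥ (cA hf hd η *ᵥ w') = 0)
    (hB0 : ∀ w ∈ W, ∀ w' ∈ W, w ⬝ᵥ (cB hf hd η *ᵥ w') = 0)
    (μ : Sr f) (b : E) (hρ : ∀ w ∈ W, rho hf hd η μ b ⬝ᵥ w = 0)
    (π : E[X]) (hπ : Irreducible π) (hπf : ¬ π ∣ f) (k : ℕ) (w : E[X])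
    (hw : rd hf hd (η * μ * μ) - C (b ^ 2) * f = π ^ (2 * k + 1) * w) (hnd : ¬ π ∣ w) :
    ∃ v : E[X], π ∣ v ^ 2 - f := by
  classical
  obtain ⟨W', hW'⟩ := Submodule.exists_isCompl W
  have hf2 : Module.finrank E W' = g + 2 := by
    have h1 := Submodule.finrank_add_eq_of_isCompl hW'
    rw [Module.finrank_fintype_fun_eq_card, Fintype.card_sum, Fintype.card_fin, Fintype.card_fin,
      hW] at h1
    omega
  let b' : Module.Basis (Ix g) E (Jx g → E) :=
    ((Module.finBasisOfFinrankEq E W hW).prod (Module.finBasisOfFinrankEq E W' hf2)).map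
      (Submodule.prodEquivOfIsCompl _ _ hW')
  have hb' : ∀ i : Fin g, b' (Sum.inl i) ∈ W := by
    intro i
    have e : b' (Sum.inl i) = (Module.finBasisOfFinrankEq E W hW i : Jx g → E) := by
      simp only [b', Module.Basis.map_apply, Submodule.coe_prodEquivOfIsCompl',
        Module.Basis.prod_apply_inl_fst, Module.Basis.prod_apply_inl_snd, Submodule.coe_zero,
        add_zero]
    rw [e]
    exact Submodule.coe_mem _
  let σ : Jx g ≃ Ix g := Fintype.equivOfCardEq (by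
    simp only [Fintype.card_sum, Fintype.card_fin]
    ring)
  let U : Matrix (Jx g) (Jx g) E := (Pi.basisFun E (Jx g)).toMatrix (b'.reindex σ.symm)
  have hU : U.det ≠ 0 := by
    have h1 := (Pi.basisFun E (Jx g)).toMatrix_mul_toMatrix_flip (b'.reindex σ.symm)
    intro h2
    have h3 := congrArg Matrix.det h1
    rw [det_mul, det_one] at h3
    change U.det * _ = 1 at h3
    rw [h2, zero_mul] at h3
    exact zero_ne_one h3
  have hUa : ∀ i j, U i j = b' (σ j) i := by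
    intro i j
    simp only [U, Module.Basis.toMatrix_apply, Pi.basisFun_repr, Module.Basis.reindex_apply,
      Equiv.symm_symm]
  have hUu : IsUnit U.det := isUnit_iff_ne_zero.2 hU
  set S := cS hf hd η with hS
  set z := zv hf hd μ b with hz
  let V : Matrix (Jx g) (Jx g) E[X] := U.map C
  let V' : Matrix (Jx g) (Jx g) E[X] := U⁻¹.map C
  have hVV : V * V' = 1 := by
    show U.map C * U⁻¹.map C = 1
    rw [← Matrix.map_mul, Matrix.mul_nonsing_inv _ hUu]
    simp
  let T : Matrix (Jx g) (Jx g) E[X] := Vᵀ * S * V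
  let y : Jx g → E[X] := V' *ᵥ z
  have hVy : V *ᵥ y = z := by
    show V *ᵥ (V' *ᵥ z) = z
    rw [mulVec_mulVec, hVV, one_mulVec]
  have hTy : T *ᵥ y = Vᵀ *ᵥ (S *ᵥ z) := by
    show (Vᵀ * S * V) *ᵥ y = _
    rw [← mulVec_mulVec, hVy, ← mulVec_mulVec]
  have hyTy : y ⬝ᵥ (T *ᵥ y) = z ⬝ᵥ (S *ᵥ z) := by
    rw [hTy, dotProduct_mulVec, vecMul_transpose, hVy]
  have hTs : T.IsSymm := by
    show (Vᵀ * S * V)ᵀ = Vᵀ * S * V
    rw [transpose_mul, transpose_mul, transpose_transpose, (cS_symm hf hd η).eq, Matrix.mul_assoc]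
  have hTdet : T.det = C (U.det ^ 2) * S.det := by
    have e : V.det = C U.det := by
      show (U.map C).det = C U.det
      rw [← RingHom.mapMatrix_apply, ← RingHom.map_det]
    show (Vᵀ * S * V).det = _
    rw [det_mul, det_mul, det_transpose, e, C_pow]
    ring
  have hT0 : ∀ i j, (∃ i', σ i = Sum.inl i') → (∃ j', σ j = Sum.inl j') → T i j = 0 := by
    rintro i j ⟨i', hi⟩ ⟨j', hj⟩
    have hwi : b' (σ i) ∈ W := by rw [hi]; exact hb' i'
    have hwj : b' (σ j) ∈ W := by rw [hj]; exact hb' j'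
    have h1 := hA0 _ hwi _ hwj
    have h2 := hB0 _ hwi _ hwj
    have h3 : T i j = X * C (b' (σ i) ⬝ᵥ (cA hf hd η *ᵥ b' (σ j))) -
        C (b' (σ i) ⬝ᵥ (cB hf hd η *ᵥ b' (σ j))) := by
      show (Vᵀ * S * V) i j = _
      rw [Matrix.mul_apply]
      simp only [Matrix.mul_apply, transpose_apply, V, map_apply, hUa, hS, cS, Matrix.of_apply,
        dotProduct, mulVec, map_sum, C_mul, Finset.mul_sum, Finset.sum_mul]
      rw [Finset.sum_comm, ← Finset.sum_sub_distrib]
      refine Finset.sum_congr rfl fun x _ => ?_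
      rw [← Finset.sum_sub_distrib]
      refine Finset.sum_congr rfl fun y _ => ?_
      ring
    rw [h3, h1, h2, map_zero, mul_zero, sub_zero]
  have hTy0 : ∀ i, (∃ i', σ i = Sum.inl i') → (T *ᵥ y) i = 0 := by
    rintro i ⟨i', hi⟩
    have hwi : b' (σ i) ∈ W := by rw [hi]; exact hb' i'
    have h1 := hρ _ hwi
    have h2 : (T *ᵥ y) i = f * C (rho hf hd η μ b ⬝ᵥ b' (σ i)) := by
      rw [hTy, hS, hz, cS_zv]
      simp only [mulVec, dotProduct, transpose_apply, V, map_apply, hUa, map_sum, C_mul,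
        Finset.mul_sum]
      refine Finset.sum_congr rfl fun x _ => ?_
      ring
    rw [h2, h1, map_zero, mul_zero]
  refine parity (T.submatrix σ.symm σ.symm) (hTs.submatrix _) (fun i j => ?_) f (U.det * m)
    (mul_ne_zero hU hm) ?_ π hπ k (y ∘ σ.symm) (fun i => ?_) (f * w) ?_ ?_
  · rw [submatrix_apply]
    exact hT0 _ _ ⟨i, σ.apply_symm_apply _⟩ ⟨j, σ.apply_symm_apply _⟩
  · rw [det_submatrix_equiv_self, hTdet, mul_left_comm, cS_det, hN, C_mul, C_pow, C_pow]
    ring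
  · rw [submatrix_mulVec_equiv, Function.comp_assoc, Equiv.symm_symm, Equiv.symm_comp_self,
      Function.comp_id, Function.comp_apply]
    exact hTy0 _ ⟨i, σ.apply_symm_apply _⟩
  · have e1 : (y ∘ σ.symm) ⬝ᵥ (T.submatrix σ.symm σ.symm *ᵥ (y ∘ σ.symm)) = y ⬝ᵥ (T *ᵥ y) := by
      rw [submatrix_mulVec_equiv, Function.comp_assoc, Equiv.symm_symm, Equiv.symm_comp_self,
        Function.comp_id]
      exact comp_equiv_dotProduct_comp_equiv _ _ _
    rw [e1, hyTy, hS, hz, zv_rho, hw]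
    ring
  · intro h
    rcases hπ.prime.dvd_or_dvd h with h | h
    · exact hπf h
    · exact hnd h

/-- a unit modulo `f` is coprime to `f` -/
lemma coprime_of {p : E[X]} (q : E[X]) (h : AdjoinRoot.mk f (p * q) = 1) : IsCoprime p f := by
  have h1 : f ∣ p * q - 1 := by
    apply AdjoinRoot.mk_eq_zero.1
    rw [map_sub, h, map_one, sub_self]
  obtain ⟨r, hr⟩ := h1
  exact ⟨q, -r, by linear_combination hr⟩

lemma inv_of {p : E[X]} (h : IsCoprime p f) : ∃ q : E[X], AdjoinRoot.mk f (p * q) = 1 := by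
  obtain ⟨a, b, hab⟩ := h
  refine ⟨a, ?_⟩
  have e : p * a = 1 - b * f := by linear_combination hab
  rw [e, map_sub, map_mul, AdjoinRoot.mk_self, mul_zero, sub_zero, map_one]

/-- the class of `h` is in the image of the Jacobian -/
theorem loc [Infinite E] (h : E[X]) (hh : IsCoprime h f) (m : E) (hm : m ≠ 0)
    (hN : Algebra.norm E (AdjoinRoot.mk f h) = m ^ 2)
    (W : Submodule E (Jx g → E)) (hW : Module.finrank E W = g)
    (hA0 : ∀ w ∈ W, ∀ w' ∈ W, w ⬝ᵥ (cA hf hd (AdjoinRoot.mk f h) *ᵥ w') = 0)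
    (hB0 : ∀ w ∈ W, ∀ w' ∈ W, w ⬝ᵥ (cB hf hd (AdjoinRoot.mk f h) *ᵥ w') = 0)
    (M : E[X]) (hM : IsCoprime M f) (b : E) (hb : b ≠ 0)
    (hρ : ∀ w ∈ W, rho hf hd (AdjoinRoot.mk f h) (AdjoinRoot.mk f M) b ⬝ᵥ w = 0) :
    ∃ (l : List (E[X] × E[X])) (s : E[X]),
      (∀ p ∈ l, p.1.Monic ∧ IsCoprime p.1 f ∧ p.1 ∣ p.2 ^ 2 - f) ∧
      f ∣ h * (l.map fun p => (-1) ^ p.1.natDegree * p.1).prod - s ^ 2 := by
  set η := AdjoinRoot.mk f h with hη
  set μ := AdjoinRoot.mk f M with hμ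
  set r := rd hf hd (η * μ * μ) with hr
  have hmr : AdjoinRoot.mk f r = η * μ * μ := mk_rd hf hd _
  have hdr : r.natDegree ≤ 2 * g := rd_deg hf hd _
  obtain ⟨h', hh'⟩ := inv_of hh
  obtain ⟨M', hM'⟩ := inv_of hM
  have hrc : IsCoprime r f := by
    refine coprime_of (h' * M' * M') ?_
    rw [map_mul, hmr, map_mul, map_mul]
    rw [map_mul] at hh' hM'
    calc η * μ * μ * (AdjoinRoot.mk f h' * AdjoinRoot.mk f M' * AdjoinRoot.mk f M')
        = (η * AdjoinRoot.mk f h') * (μ * AdjoinRoot.mk f M') * (μ * AdjoinRoot.mk f M') := by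
          ring
      _ = 1 := by rw [hh', hM']; ring
  have hb2 : b ^ 2 ≠ 0 := pow_ne_zero 2 hb
  set u := f - C ((b ^ 2)⁻¹) * r with hu
  have hur : r - C (b ^ 2) * f = C (-(b ^ 2)) * u := by
    have e : C (b ^ 2) * C ((b ^ 2)⁻¹) = (1 : E[X]) := by
      rw [← C_mul, mul_inv_cancel₀ hb2, C_1]
    rw [hu, C_neg]
    linear_combination (-r) * e
  have hum : u.Monic := by
    refine hf.sub_of_left ?_
    refine lt_of_le_of_lt (degree_le_of_natDegree_le ((natDegree_C_mul_le _ _).trans hdr)) ?_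
    rw [degree_eq_natDegree hf.ne_zero, hd]
    exact_mod_cast Nat.lt_succ_self _
  have hud : u.natDegree = 2 * g + 1 := by
    rw [hu, natDegree_sub_eq_left_of_natDegree_lt, hd]
    rw [hd]
    exact lt_of_le_of_lt ((natDegree_C_mul_le _ _).trans hdr) (Nat.lt_succ_self _)
  have huc : IsCoprime u f := by
    have e : u = -(C ((b ^ 2)⁻¹) * r) + 1 * f := by rw [hu]; ring
    rw [e]
    refine IsCoprime.add_mul_right_left ?_ 1
    refine IsCoprime.neg_left ?_
    refine IsCoprime.mul_left ⟨C (b ^ 2), 0, ?_⟩ hrc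
    rw [zero_mul, add_zero, ← C_mul, mul_inv_cancel₀ hb2, C_1]
  have hO : Odds f u := by
    intro π hπm hπi k w hw hnd
    have hπf : ¬ π ∣ f := by
      intro h1
      have h2 : π ∣ u := by
        rw [hw]
        exact Dvd.intro (π ^ (2 * k) * w) (by ring)
      exact hπi.not_isUnit (huc.isUnit_of_dvd' h2 h1)
    refine odds hf hd η m hm hN W hW hA0 hB0 μ b hρ π hπi hπf k (C (-(b ^ 2)) * w) ?_ ?_
    · show r - C (b ^ 2) * f = _
      rw [hur, hw]
      ring
    · intro h1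
      rcases hπi.prime.dvd_or_dvd h1 with h2 | h2
      · exact hπi.not_isUnit (isUnit_of_dvd_unit h2 (isUnit_C.2
          (isUnit_iff_ne_zero.2 (neg_ne_zero.2 hb2))))
      · exact hnd h2
  obtain ⟨l, a, hl, ha⟩ := asm f _ u rfl hum huc hO
  obtain ⟨h1, h2⟩ := sgn_prod l fun p hp => (hl p hp).1
  set P := (l.map Prod.fst).prod with hP
  have hane : a ≠ 0 := by
    rintro rfl
    rw [zero_pow two_ne_zero, zero_mul] at ha
    exact hum.ne_zero ha
  have hodd : Odd P.natDegree := by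
    have h3 := congrArg natDegree ha
    rw [hud, natDegree_mul (pow_ne_zero 2 hane) h2.ne_zero, natDegree_pow] at h3
    exact ⟨g - a.natDegree, by omega⟩
  have hac : IsCoprime a f := by
    refine huc.of_isCoprime_of_dvd_left ?_
    rw [ha]
    exact Dvd.intro (a * P) (by ring)
  obtain ⟨a', ha'⟩ := inv_of hac
  rw [map_mul] at ha'
  refine ⟨l, C (b⁻¹) * h * M * a', hl, ?_⟩
  rw [h1, hodd.neg_one_pow]
  apply AdjoinRoot.mk_eq_zero.1
  have h4 : AdjoinRoot.mk f u = AdjoinRoot.mk f a ^ 2 * AdjoinRoot.mk f P := by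
    rw [← map_pow, ← map_mul, ← ha]
  have h5 : AdjoinRoot.mk f u = - (AdjoinRoot.mk f (C ((b ^ 2)⁻¹)) * (η * μ * μ)) := by
    rw [hu, map_sub, AdjoinRoot.mk_self, zero_sub, map_mul, hmr]
  have h6 : AdjoinRoot.mk f (C ((b ^ 2)⁻¹)) = AdjoinRoot.mk f (C (b⁻¹)) ^ 2 := by
    rw [← map_pow, ← C_pow, inv_pow]
  rw [map_sub, map_pow, map_mul, map_mul, map_neg, map_one, map_mul, map_mul, map_mul, ← hη, ← hμ]
  have h7 : AdjoinRoot.mk f P = -(AdjoinRoot.mk f (C (b⁻¹)) ^ 2 * (η * μ * μ)) *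
      AdjoinRoot.mk f a' ^ 2 := by
    calc AdjoinRoot.mk f P = (AdjoinRoot.mk f a * AdjoinRoot.mk f a') ^ 2 * AdjoinRoot.mk f P := by
          rw [ha']; ring
      _ = (AdjoinRoot.mk f a ^ 2 * AdjoinRoot.mk f P) * AdjoinRoot.mk f a' ^ 2 := by ring
      _ = _ := by rw [← h4, h5, h6]
  rw [h7]
  ring

end pt

end Pool.Agent.N844.PL
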