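import Pool.Agent.N844.PL.Ker

/-!
Splitting off the vertex, and the characteristic polynomial.
-/

set_option autoImplicit false
set_option linter.all false

open Matrix Polynomial

namespace Pool.Agent.N844.PL

open Pool.Agent.N844.QR (Sr bs bs_apply tau tau_pow tau_top gA gB cm det_g hom po_eval es ro ro_eval
  ro_eval_zero)

section split

variable {k : Type} [Field k] {g : ℕ} {f : k[X]} (hf : f.Monic) (hd : f.natDegree = 2 * g + 1)

/-- splitting off the vertex -/
theorem split (A B : Matrix (Jx g) (Jx g) k) (hA : A.IsSymm) (hB : B.IsSymm) (e : Jx g → k)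
    (he : A *ᵥ e = 0) (hβ : e ⬝ᵥ (B *ᵥ e) ≠ 0) :
    ∃ (U : Matrix (Jx g) (Jx g) k) (A' B' : Matrix (Fin (2 * g + 1)) (Fin (2 * g + 1)) k),
      U.det ≠ 0 ∧ A'.IsSymm ∧ B'.IsSymm ∧ Uᵀ * A * U = fromBlocks A' 0 0 0 ∧
      Uᵀ * B * U = fromBlocks B' 0 0 (Matrix.of fun _ _ => e ⬝ᵥ (B *ᵥ e)) := by
  classical
  let φ : (Jx g → k) →ₗ[k] k :=
    { toFun := fun v => e ⬝ᵥ (B *ᵥ v)
      map_add' := fun v w => by rw [mulVec_add, dotProduct_add]
      map_smul' := fun c v => by rw [mulVec_smul, dotProduct_smul, RingHom.id_apply] }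
  have hφ : ∀ v, φ v = e ⬝ᵥ (B *ᵥ v) := fun v => rfl
  set β := e ⬝ᵥ (B *ᵥ e) with hβd
  have he0 : e ≠ 0 := by
    rintro rfl
    exact hβ (by rw [hβd]; exact zero_dotProduct _)
  have hcompl : IsCompl (LinearMap.ker φ) (Submodule.span k {e}) := by
    refine ⟨Submodule.disjoint_def.2 fun v hv1 hv2 => ?_, codisjoint_iff_le_sup.2 fun v _ => ?_⟩
    · obtain ⟨c, rfl⟩ := Submodule.mem_span_singleton.1 hv2
      have h1 : c * β = 0 := by
        have h2 : φ (c • e) = 0 := hv1
        rw [map_smul, smul_eq_mul] at h2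
        exact h2
      rw [(mul_eq_zero.1 h1).resolve_right hβ, zero_smul]
    · have h1 : v = (v - (φ v / β) • e) + (φ v / β) • e := by abel
      rw [h1]
      refine Submodule.add_mem_sup ?_ (Submodule.smul_mem _ _ (Submodule.mem_span_singleton_self e))
      show φ (v - (φ v / β) • e) = 0
      rw [map_sub, map_smul, smul_eq_mul, show φ e = β from rfl, div_mul_cancel₀ _ hβ, sub_self]
  have hfr : Module.finrank k (LinearMap.ker φ) = 2 * g + 1 := by
    have h1 := Submodule.finrank_add_eq_of_isCompl hcompl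
    rw [finrank_span_singleton he0, Module.finrank_fintype_fun_eq_card, Fintype.card_sum,
      Fintype.card_fin, Fintype.card_fin] at h1
    omega
  have hfe : Module.finrank k (Submodule.span k {e}) = 1 := finrank_span_singleton he0
  let b1 : Module.Basis (Fin 1) k (Submodule.span k {e}) :=
    (Module.Basis.span (v := fun _ : Fin 1 => e) (linearIndependent_unique_iff.2 he0)).map
      (LinearEquiv.ofEq _ _ (by rw [Set.range_const]))
  let b' : Module.Basis (Jx g) k (Jx g → k) :=
    ((Module.finBasisOfFinrankEq k (LinearMap.ker φ) hfr).prod b1).map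
      (Submodule.prodEquivOfIsCompl _ _ hcompl)
  have hb1 : ∀ i : Fin (2 * g + 1), φ (b' (Sum.inl i)) = 0 := by
    intro i
    have e1 : b' (Sum.inl i) =
        (Module.finBasisOfFinrankEq k (LinearMap.ker φ) hfr i : Jx g → k) := by
      simp only [b', Module.Basis.map_apply, Submodule.coe_prodEquivOfIsCompl',
        Module.Basis.prod_apply_inl_fst, Module.Basis.prod_apply_inl_snd, Submodule.coe_zero,
        add_zero]
    rw [e1]
    exact (Module.finBasisOfFinrankEq k (LinearMap.ker φ) hfr i).2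
  have hb2 : ∀ i : Fin 1, b' (Sum.inr i) = e := by
    intro i
    simp only [b', Module.Basis.map_apply, Submodule.coe_prodEquivOfIsCompl',
      Module.Basis.prod_apply_inr_fst, Module.Basis.prod_apply_inr_snd, Submodule.coe_zero,
      zero_add, b1, LinearEquiv.coe_ofEq_apply, Module.Basis.span_apply]
  let U : Matrix (Jx g) (Jx g) k := (Pi.basisFun k (Jx g)).toMatrix b'
  have hU : U.det ≠ 0 := by
    have h1 := (Pi.basisFun k (Jx g)).toMatrix_mul_toMatrix_flip b'
    intro h2
    have h3 := congrArg Matrix.det h1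
    rw [det_mul, det_one] at h3
    change U.det * _ = 1 at h3
    rw [h2, zero_mul] at h3
    exact zero_ne_one h3
  have hUa : ∀ i j, U i j = b' j i := by
    intro i j
    simp only [U, Module.Basis.toMatrix_apply, Pi.basisFun_repr]
  have hUD : ∀ (D : Matrix (Jx g) (Jx g) k) (i j : Jx g),
      (Uᵀ * D * U) i j = b' i ⬝ᵥ (D *ᵥ b' j) := by
    intro D i j
    rw [Matrix.mul_apply]
    simp only [Matrix.mul_apply, transpose_apply, hUa, dotProduct, mulVec, Finset.mul_sum,
      Finset.sum_mul]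
    rw [Finset.sum_comm]
    refine Finset.sum_congr rfl fun x _ => Finset.sum_congr rfl fun y _ => ?_
    ring
  have hsym : ∀ (D : Matrix (Jx g) (Jx g) k), D.IsSymm → ∀ v w : Jx g → k,
      v ⬝ᵥ (D *ᵥ w) = w ⬝ᵥ (D *ᵥ v) := by
    intro D hD v w
    rw [dotProduct_mulVec, ← mulVec_transpose, hD.eq, dotProduct_comm]
  refine ⟨U, Matrix.of fun i j => b' (Sum.inl i) ⬝ᵥ (A *ᵥ b' (Sum.inl j)),
    Matrix.of fun i j => b' (Sum.inl i) ⬝ᵥ (B *ᵥ b' (Sum.inl j)), hU, ?_, ?_, ?_, ?_⟩
  · ext i j
    exact hsym A hA _ _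
  · ext i j
    exact hsym B hB _ _
  · ext i j
    rw [hUD]
    rcases i with i | i <;> rcases j with j | j
    · rfl
    · rw [hb2, he, dotProduct_zero, fromBlocks_apply₁₂, Matrix.zero_apply]
    · rw [hsym A hA, hb2, he, dotProduct_zero, fromBlocks_apply₂₁, Matrix.zero_apply]
    · rw [hb2, hb2, he, dotProduct_zero, fromBlocks_apply₂₂, Matrix.zero_apply]
  · ext i j
    rw [hUD]
    rcases i with i | i <;> rcases j with j | j
    · rfl
    · rw [hb2, hsym B hB, fromBlocks_apply₁₂, Matrix.zero_apply]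
      exact hb1 i
    · rw [hb2, fromBlocks_apply₂₁, Matrix.zero_apply]
      exact hb1 j
    · rw [hb2, hb2, fromBlocks_apply₂₂]
      rfl

include hf hd in
/-- the characteristic polynomial of the operator -/
theorem chpoly [Infinite k] (A B U : Matrix (Jx g) (Jx g) k)
    (A' B' : Matrix (Fin (2 * g + 1)) (Fin (2 * g + 1)) k) (m β : k) (hm : m ≠ 0) (hβ : β ≠ 0)
    (hdisc : ∀ x z : k, (-1) ^ (g + 1) * (x • A - z • B).det = m ^ 2 * (z * hom g f x z))
    (hU : U.det ≠ 0) (h1 : Uᵀ * A * U = fromBlocks A' 0 0 0)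
    (h2 : Uᵀ * B * U = fromBlocks B' 0 0 (Matrix.of fun _ _ => β)) :
    A'.det ≠ 0 ∧ (A'⁻¹ * B').charpoly = f ∧ (-1) ^ g * β * A'.det = (U.det * m) ^ 2 := by
  have key : ∀ x : k, (-1) ^ g * β * (x • A' - B').det = (U.det * m) ^ 2 * f.eval x := by
    intro x
    have h3 := hdisc x 1
    have h4 : Uᵀ * (x • A - (1 : k) • B) * U =
        fromBlocks (x • A' - B') 0 0 (Matrix.of fun _ _ => -β) := by
      rw [Matrix.mul_sub, Matrix.sub_mul, Matrix.mul_smul, Matrix.smul_mul, h1, one_smul, h2,
        fromBlocks_smul, sub_eq_add_neg, fromBlocks_neg, fromBlocks_add]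
      congr 1
      · rw [sub_eq_add_neg]
      · simp
      · simp
      · ext i j
        simp
    have h5 := congrArg Matrix.det h4
    rw [det_mul, det_mul, det_transpose, det_fromBlocks_zero₂₁, det_fin_one, Matrix.of_apply] at h5
    rw [one_mul, ← po_eval hd] at h3
    calc (-1) ^ g * β * (x • A' - B').det = (-1) ^ (g + 1) * ((x • A' - B').det * -β) := by ring
      _ = U.det ^ 2 * ((-1) ^ (g + 1) * (x • A - (1 : k) • B).det) := by rw [← h5]; ring
      _ = _ := by rw [h3]; ring
  have kp : C ((-1) ^ g * β) * ((X : k[X]) • A'.map C + (-B').map C).det =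
      C ((U.det * m) ^ 2) * f := by
    apply Polynomial.funext
    intro x
    have h3 : (((X : k[X]) • A'.map C + (-B').map C).det).eval x = (x • A' - B').det := by
      rw [← coe_evalRingHom, RingHom.map_det]
      congr 1
      ext i j
      simp [sub_eq_add_neg]
      try ring
    rw [eval_mul, eval_mul, eval_C, eval_C, h3, key]
  have hlead : (-1) ^ g * β * A'.det = (U.det * m) ^ 2 := by
    have h3 := congrArg (fun p : k[X] => p.coeff (2 * g + 1)) kp
    simp only [coeff_C_mul] at h3
    have h4 := coeff_det_X_add_C_card A' (-B')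
    rw [Fintype.card_fin] at h4
    rw [h4] at h3
    have h5 : f.coeff (2 * g + 1) = 1 := by rw [← hd]; exact hf
    rw [h5, mul_one] at h3
    exact h3
  have hne : (U.det * m) ^ 2 ≠ 0 := pow_ne_zero 2 (mul_ne_zero hU hm)
  have hA' : A'.det ≠ 0 := by
    intro h3
    rw [h3, mul_zero] at hlead
    exact hne hlead.symm
  refine ⟨hA', ?_, hlead⟩
  apply Polynomial.funext
  intro x
  have h3 := key x
  rw [eval_charpoly]
  have h4 : x • A' - B' = A' * (Matrix.scalar _ x - A'⁻¹ * B') := by
    rw [Matrix.mul_sub, ← Matrix.mul_assoc, Matrix.mul_nonsing_inv _ (isUnit_iff_ne_zero.2 hA'),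
      Matrix.one_mul]
    congr 1
    ext i j
    rw [Matrix.smul_apply, Matrix.scalar_apply, Matrix.mul_diagonal, smul_eq_mul, mul_comm]
  rw [h4, det_mul, ← mul_assoc, hlead] at h3
  exact mul_left_cancel₀ hne h3

end split

end Pool.Agent.N844.PL
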