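import Mathlib

/-!
The discriminant of a symmetric form with an isotropic subspace of half the dimension is a square.
-/

set_option autoImplicit false

open Matrix

namespace Pool.Agent.N844.PL

theorem det_block {κ : Type*} [Field κ] {n : ℕ} (P Q D : Matrix (Fin n) (Fin n) κ) :
    (fromBlocks 0 P Q D).det = (-1) ^ n * (P.det * Q.det) := by
  have h : fromBlocks (1 : Matrix (Fin n) (Fin n) κ) 0 (-1) (1 : Matrix (Fin n) (Fin n) κ) *
      (fromBlocks 1 1 0 1 * fromBlocks 0 P Q D) = fromBlocks Q (P + D) 0 (-P) := by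
    rw [fromBlocks_multiply, fromBlocks_multiply]
    congr 1 <;> simp
  have h2 := congrArg Matrix.det h
  rw [det_mul, det_mul, det_fromBlocks_zero₂₁, det_fromBlocks_zero₂₁, det_fromBlocks_zero₁₂,
    det_neg, det_one, Fintype.card_fin] at h2
  rw [one_mul, one_mul, one_mul] at h2
  rw [h2]
  ring

theorem isq {κ : Type*} [Field κ] {n : ℕ} {ι : Type*} [Fintype ι] [DecidableEq ι]
    (hι : Fintype.card ι = 2 * n) (S : Matrix ι ι κ) (hS : S.IsSymm) (v : Fin n → ι → κ)
    (hv : LinearIndependent κ v) (h0 : ∀ i j, v i ⬝ᵥ (S *ᵥ v j) = 0) :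
    ∃ c : κ, (-1) ^ n * S.det = c ^ 2 := by
  classical
  obtain ⟨W', hW'⟩ := Submodule.exists_isCompl (Submodule.span κ (Set.range v))
  have hf1 : Module.finrank κ (Submodule.span κ (Set.range v)) = n := by
    rw [finrank_span_eq_card hv, Fintype.card_fin]
  have hf2 : Module.finrank κ W' = n := by
    have h1 := Submodule.finrank_add_eq_of_isCompl hW'
    rw [Module.finrank_fintype_fun_eq_card, hι, hf1] at h1
    omega
  let b' : Module.Basis (Fin n ⊕ Fin n) κ (ι → κ) :=
    ((Module.Basis.span hv).prod (Module.finBasisOfFinrankEq κ W' hf2)).map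
      (Submodule.prodEquivOfIsCompl _ _ hW')
  have hb' : ∀ i : Fin n, b' (Sum.inl i) = v i := by
    intro i
    simp only [b', Module.Basis.map_apply, Submodule.coe_prodEquivOfIsCompl',
      Module.Basis.prod_apply_inl_fst, Module.Basis.prod_apply_inl_snd, Submodule.coe_zero, add_zero,
      Module.Basis.span_apply]
  let σ : ι ≃ Fin n ⊕ Fin n := Fintype.equivOfCardEq (by
    rw [hι, Fintype.card_sum, Fintype.card_fin]
    ring)
  let U : Matrix ι ι κ := (Pi.basisFun κ ι).toMatrix (b'.reindex σ.symm)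
  have hU : U.det ≠ 0 := by
    have h1 := (Pi.basisFun κ ι).toMatrix_mul_toMatrix_flip (b'.reindex σ.symm)
    intro h2
    have h3 := congrArg Matrix.det h1
    rw [det_mul, det_one] at h3
    change U.det * _ = 1 at h3
    rw [h2, zero_mul] at h3
    exact zero_ne_one h3
  have hUa : ∀ i j, U i j = b' (σ j) i := by
    intro i j
    simp only [U, Module.Basis.toMatrix_apply, Pi.basisFun_repr, Module.Basis.reindex_apply,
      Equiv.symm_symm]
  let M : Matrix (Fin n ⊕ Fin n) (Fin n ⊕ Fin n) κ := Matrix.of fun x y => b' x ⬝ᵥ (S *ᵥ b' y)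
  have hM : Uᵀ * S * U = M.submatrix σ σ := by
    ext i j
    rw [submatrix_apply]
    show _ = b' (σ i) ⬝ᵥ (S *ᵥ b' (σ j))
    rw [Matrix.mul_apply]
    simp only [Matrix.mul_apply, transpose_apply, hUa, dotProduct, mulVec, Finset.mul_sum,
      Finset.sum_mul]
    rw [Finset.sum_comm]
    refine Finset.sum_congr rfl fun x _ => Finset.sum_congr rfl fun y _ => ?_
    ring
  have hMs : M = fromBlocks 0 M.toBlocks₁₂ (M.toBlocks₁₂)ᵀ M.toBlocks₂₂ := by
    have h1 : M.toBlocks₁₁ = 0 := by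
      ext i j
      show b' (Sum.inl i) ⬝ᵥ (S *ᵥ b' (Sum.inl j)) = 0
      rw [hb', hb']
      exact h0 i j
    have h2 : M.toBlocks₂₁ = (M.toBlocks₁₂)ᵀ := by
      ext i j
      show b' (Sum.inr i) ⬝ᵥ (S *ᵥ b' (Sum.inl j)) = b' (Sum.inl j) ⬝ᵥ (S *ᵥ b' (Sum.inr i))
      rw [dotProduct_mulVec, ← mulVec_transpose, hS.eq, dotProduct_comm]
    conv_lhs => rw [← fromBlocks_toBlocks M, h1, h2]
  have h5 : U.det ^ 2 * S.det = (-1) ^ n * M.toBlocks₁₂.det ^ 2 := by
    have h6 := congrArg Matrix.det hM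
    rw [det_mul, det_mul, det_transpose, det_submatrix_equiv_self, hMs, det_block,
      det_transpose] at h6
    rw [← pow_two] at h6
    rw [← h6]
    ring
  refine ⟨M.toBlocks₁₂.det / U.det, ?_⟩
  field_simp
  have h7 : ((-1 : κ) ^ n) * (-1) ^ n = 1 := by
    rw [← mul_pow]; simp
  calc (-1) ^ n * S.det * U.det ^ 2 = (-1) ^ n * (U.det ^ 2 * S.det) := by ring
    _ = M.toBlocks₁₂.det ^ 2 := by
      rw [h5, ← mul_assoc, h7, one_mul]

end Pool.Agent.N844.PL
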