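import Pool.Agent.N844.PL.Nf

/-!
The pencil over the ring of polynomials and its vectors.
-/

set_option autoImplicit false
set_option linter.all false

open Matrix Polynomial

namespace Pool.Agent.N844.PL

open Pool.Agent.N844.QR (Sr bs bs_apply tau tau_pow tau_top gA gB cm det_g hom po_eval)

section vec

variable {E : Type} [Field E] {g : ℕ} {f : E[X]} (hf : f.Monic) (hd : f.natDegree = 2 * g + 1)

/-- the index set of the coordinates -/
abbrev Jx (g : ℕ) : Type := Fin (2 * g + 1) ⊕ Fin 1

/-- the first quadric -/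
noncomputable def cA (η : Sr f) : Matrix (Jx g) (Jx g) E := fromBlocks (hA hf hd η) 0 0 0

/-- the second quadric -/
noncomputable def cB (η : Sr f) : Matrix (Jx g) (Jx g) E := fromBlocks (hB hf hd η) 0 0 1

lemma hA_symm (η : Sr f) : (hA hf hd η).IsSymm := by
  ext i j
  unfold hA
  rw [Matrix.transpose_apply, Matrix.of_apply, Matrix.of_apply, add_comm]

lemma hB_symm (η : Sr f) : (hB hf hd η).IsSymm := by
  ext i j
  unfold hB
  rw [Matrix.transpose_apply, Matrix.of_apply, Matrix.of_apply, add_comm (j : ℕ)]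

lemma cA_symm (η : Sr f) : (cA hf hd η).IsSymm :=
  Matrix.IsSymm.fromBlocks (hA_symm hf hd η) rfl (by simp)

lemma cB_symm (η : Sr f) : (cB hf hd η).IsSymm :=
  Matrix.IsSymm.fromBlocks (hB_symm hf hd η) rfl (by simp)

/-- the pencil `x A - B` -/
noncomputable def cS (η : Sr f) : Matrix (Jx g) (Jx g) E[X] :=
  Matrix.of fun i j => X * C (cA hf hd η i j) - C (cB hf hd η i j)

lemma cS_symm (η : Sr f) : (cS hf hd η).IsSymm := by
  ext i j
  rw [Matrix.transpose_apply]
  unfold cS
  rw [Matrix.of_apply, Matrix.of_apply, (cA_symm hf hd η).apply i j, (cB_symm hf hd η).apply i j]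

theorem cS_det [Infinite E] (η : Sr f) :
    (-1) ^ (g + 1) * (cS hf hd η).det = C (Algebra.norm E η) * f := by
  apply Polynomial.funext
  intro r
  rw [eval_mul, eval_mul, eval_C, eval_pow, eval_neg, eval_one]
  have h1 : (cS hf hd η).det.eval r = (r • cA hf hd η - (1 : E) • cB hf hd η).det := by
    rw [← coe_evalRingHom, RingHom.map_det]
    congr 1
    ext i j
    unfold cS
    simp
    ring
  have h2 : r • cA hf hd η - (1 : E) • cB hf hd η =
      fromBlocks (r • hA hf hd η - (1 : E) • hB hf hd η) 0 0 (-1) := by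
    unfold cA cB
    rw [fromBlocks_smul, fromBlocks_smul, sub_eq_add_neg, fromBlocks_neg, fromBlocks_add]
    congr 1 <;> simp [sub_eq_add_neg]
  rw [h1, h2, det_fromBlocks_zero₂₁, det_neg, Fintype.card_fin, det_one]
  have h3 := det_h hf hd η r 1
  rw [← po_eval hd] at h3
  rw [mul_comm (Algebra.norm E η), ← h3]
  ring

/-- the vector `(μ D, - b f)` -/
noncomputable def zv (μ : Sr f) (b : E) : Jx g → E[X] :=
  Sum.elim (fun i => ∑ k ∈ Finset.range (2 * g + 1),
    C ((bs hf hd).repr (μ * AdjoinRoot.root f ^ k) i) * Hp f (k + 1)) fun _ => -(C b * f)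

/-- the covector of `(μ, b)` -/
noncomputable def rho (η μ : Sr f) (b : E) : Jx g → E :=
  Sum.elim (fun i => tau hf hd (η * μ * AdjoinRoot.root f ^ (i : ℕ))) fun _ => b

theorem cS_zv (η μ : Sr f) (b : E) :
    cS hf hd η *ᵥ zv hf hd μ b = fun j => f * C (rho hf hd η μ b j) := by
  funext j
  rcases j with j | j
  · simp only [mulVec, dotProduct, Fintype.sum_sum_type, cS, Matrix.of_apply, zv, Sum.elim_inl,
      Sum.elim_inr, cA, cB, fromBlocks_apply₁₁, fromBlocks_apply₁₂, Matrix.zero_apply, map_zero,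
      mul_zero, sub_zero, zero_mul, Finset.sum_const_zero, add_zero, rho]
    have h := tel hf hd
      (fun k => tau hf hd (η * μ * AdjoinRoot.root f ^ (j : ℕ) * AdjoinRoot.root f ^ k))
    rw [ann, map_zero, sub_zero, pow_zero, mul_one] at h
    rw [← h]
    simp only [Finset.mul_sum]
    rw [Finset.sum_comm]
    refine Finset.sum_congr rfl fun k _ => ?_
    have e1 := hA_coord hf hd η (μ * AdjoinRoot.root f ^ k) j
    have e2 := hB_coord hf hd η (μ * AdjoinRoot.root f ^ k) j
    have e3 : η * AdjoinRoot.root f ^ (j : ℕ) * (μ * AdjoinRoot.root f ^ k) =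
        η * μ * AdjoinRoot.root f ^ (j : ℕ) * AdjoinRoot.root f ^ k := by ring
    have e4 : η * AdjoinRoot.root f ^ (j : ℕ) * (AdjoinRoot.root f *
        (μ * AdjoinRoot.root f ^ k)) =
        η * μ * AdjoinRoot.root f ^ (j : ℕ) * AdjoinRoot.root f ^ (k + 1) := by ring
    rw [e3] at e1
    rw [e4] at e2
    rw [← e1, ← e2, map_sum, map_sum, Finset.mul_sum, ← Finset.sum_sub_distrib, Finset.sum_mul]
    refine Finset.sum_congr rfl fun i _ => ?_
    rw [C_mul, C_mul]
    ring
  · simp only [mulVec, dotProduct, Fintype.sum_sum_type, cS, Matrix.of_apply, zv, Sum.elim_inl,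
      Sum.elim_inr, cA, cB, fromBlocks_apply₂₁, fromBlocks_apply₂₂, Matrix.zero_apply, map_zero,
      mul_zero, sub_zero, zero_mul, Finset.sum_const_zero, zero_add, rho,
      Finset.univ_unique, Finset.sum_singleton, Fin.isValue]
    have e : j = default := Subsingleton.elim _ _
    rw [e, Matrix.one_apply_eq, map_one]
    ring

theorem zv_rho (η μ : Sr f) (b : E) : zv hf hd μ b ⬝ᵥ (cS hf hd η *ᵥ zv hf hd μ b) =
    f * (rd hf hd (η * μ * μ) - C (b ^ 2) * f) := by
  rw [cS_zv]
  simp only [dotProduct, Fintype.sum_sum_type, zv, rho, Sum.elim_inl, Sum.elim_inr,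
    Finset.univ_unique, Finset.sum_singleton]
  have h1 : ∑ i : Fin (2 * g + 1), (∑ k ∈ Finset.range (2 * g + 1),
      C ((bs hf hd).repr (μ * AdjoinRoot.root f ^ k) i) * Hp f (k + 1)) *
      (f * C (tau hf hd (η * μ * AdjoinRoot.root f ^ (i : ℕ)))) = f * rd hf hd (η * μ * μ) := by
    unfold rd
    simp only [Finset.sum_mul, Finset.mul_sum]
    rw [Finset.sum_comm]
    refine Finset.sum_congr rfl fun k _ => ?_
    have e1 : ∑ i : Fin (2 * g + 1), tau hf hd (η * μ * AdjoinRoot.root f ^ (i : ℕ)) *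
        (bs hf hd).repr (μ * AdjoinRoot.root f ^ k) i =
        tau hf hd (η * μ * μ * AdjoinRoot.root f ^ k) := by
      have := hA_coord hf hd (η * μ) (μ * AdjoinRoot.root f ^ k) 0
      rw [show η * μ * AdjoinRoot.root f ^ ((0 : Fin (2 * g + 1)) : ℕ) *
        (μ * AdjoinRoot.root f ^ k) = η * μ * μ * AdjoinRoot.root f ^ k by
          rw [show ((0 : Fin (2 * g + 1)) : ℕ) = 0 from rfl, pow_zero]; ring] at this
      rw [← this]
      refine Finset.sum_congr rfl fun i _ => ?_
      unfold hA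
      rw [Matrix.of_apply, show ((0 : Fin (2 * g + 1)) : ℕ) + (i : ℕ) = i by simp]
    rw [← e1, map_sum, Finset.sum_mul, Finset.mul_sum]
    refine Finset.sum_congr rfl fun i _ => ?_
    rw [C_mul]
    ring
  rw [h1, C_pow]
  ring

end vec

end Pool.Agent.N844.PL
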